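/-
helper10: permutation stability of the groups F/([R,R]R^m), F free of finite rank, F/R abelian
(in particular free metabelian groups).  Definitions shared by all modules.
-/
import Mathlib

set_option autoImplicit false

open MeasureTheory Filter Topology

namespace Pool.Agent.H10.PS

/-- The free group on `r` letters. -/
abbrev FG (r : ℕ) := FreeGroup (Fin r)

/-- `[R,R] R^m` (for `m = 0` this is `[R,R]`). -/
def NN {r : ℕ} (R : Subgroup (FG r)) (m : ℕ) : Subgroup (FG r) :=
  ⁅R, R⁆ ⊔ Subgroup.closure {w | ∃ a ∈ R, w = a ^ m}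

/-- Proportion of the points `ω` of a finite `F`-set at which exactly the words of `P`
among the words of `D` fix `ω`. -/
noncomputable def freq {r : ℕ} {Ω : Type} (σ : FG r →* Equiv.Perm Ω)
    (D P : Finset (FG r)) : ℝ :=
  (Nat.card {ω : Ω // ∀ w ∈ D, (σ w ω = ω ↔ w ∈ P)} : ℝ) / Nat.card Ω

/-! ### random subgroups -/

/-- The compact space of subsets of `F`. -/
abbrev XX (r : ℕ) := FG r → Bool

/-- `x` is (the indicator function of) a subgroup containing `N`. -/
def IsSub {r : ℕ} (N : Subgroup (FG r)) (x : XX r) : Prop :=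
  ∃ H : Subgroup (FG r), N ≤ H ∧ ∀ w, x w = true ↔ w ∈ H

/-- Conjugation: if `x` is the indicator of `H` then `conjX g x` is the indicator of `g H g⁻¹`. -/
def conjX {r : ℕ} (g : FG r) (x : XX r) : XX r := fun w => x (g⁻¹ * w * g)

/-- Invariant random subgroups (of `F`, containing `N`). -/
structure IsIRS {r : ℕ} (N : Subgroup (FG r)) (μ : Measure (XX r)) : Prop where
  prob : IsProbabilityMeasure μ
  sub : ∀ᵐ x ∂μ, IsSub N x
  inv : ∀ g : FG r, μ.map (conjX g) = μ

/-- The cylinder set of all `x` whose trace on `D` is `P`. -/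
def cyl {r : ℕ} (D P : Finset (FG r)) : Set (XX r) := {x | ∀ w ∈ D, (x w = true ↔ w ∈ P)}

/-! ### tickets and centres (random partition of a finite `F`-set by independent labels) -/

/-- Number of `j` with `γ j • c = ω`. -/
noncomputable def mult {r : ℕ} {J Ω : Type} (γ : J → FG r) (σ : FG r →* Equiv.Perm Ω)
    (ω c : Ω) : ℕ := Nat.card {j : J // σ (γ j) c = ω}

/-- The tickets `(c,k)` available at `ω`: there are `mult ω c` tickets for the centre `c`. -/
def Tick {r : ℕ} {J Ω : Type} (γ : J → FG r) (σ : FG r →* Equiv.Perm Ω) (m : ℕ)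
    (ω : Ω) : Set (Ω × Fin m) := {t | (t.2 : ℕ) < mult γ σ ω t.1}

/-- `z` is the centre of `ω`: the label attains its minimum on the tickets of `ω` at exactly one
ticket, and this ticket is one for `z`. -/
def Ctr {r : ℕ} {J Ω : Type} (γ : J → FG r) (σ : FG r →* Equiv.Perm Ω) {m M : ℕ}
    (l : Ω × Fin m → Fin M) (ω z : Ω) : Prop :=
  ∃ k : Fin m, (z, k) ∈ Tick γ σ m ω ∧ ∀ t ∈ Tick γ σ m ω, t ≠ (z, k) → l (z, k) < l t

/-- The type of a possible centre `z`: the set of `j` such that `z` is the centre of `γ j • z`. -/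
def Ty {r : ℕ} {J Ω : Type} (γ : J → FG r) (σ : FG r →* Equiv.Perm Ω) {m M : ℕ}
    (l : Ω × Fin m → Fin M) (z : Ω) : Set J := {j | Ctr γ σ l (σ (γ j) z) z}

/-- Words used to compare types. -/
def EE {r : ℕ} {J : Type} (γ : J → FG r) : Set (FG r) :=
  {w | ∃ a b c d : J, w = (γ a)⁻¹ * γ b * (γ c)⁻¹ * γ d}

/-! ### tiles -/

/-- A finite tile adapted to a subgroup `F₀ ⊇ R` (`F/R` abelian): `V` is a finite `F`-set on which
`F₀` acts trivially, `g v` are reference elements, `h` is a cocycle with values in `F₀` which maps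
`R` into `R`. -/
structure Tile {r : ℕ} (R F₀ : Subgroup (FG r)) (V : Type) where
  p : FG r →* Equiv.Perm V
  g : V → FG r
  h : FG r → V → FG r
  p_triv : ∀ w ∈ F₀, p w = 1
  h_mul : ∀ w w' v, h (w * w') v = h w (p w' v) * h w' v
  h_mem : ∀ w v, h w v ∈ F₀
  h_R : ∀ w ∈ R, ∀ v, h w v ∈ R

end Pool.Agent.H10.PS
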