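/-
helper10: targets (as `Prop`s) for the modules of the permutation stability theorem for
F/([R,R]R^m), F/R abelian.
-/
import Pool.Agent.H10.PS.Defs

set_option autoImplicit false

open MeasureTheory Filter Topology

namespace Pool.Agent.H10.PS

/-! ## Part 1: matching of two finite F-sets with almost equal statistics -/

/-- CLOCK. -/
def T_CLOCK : Prop :=
  ∀ (T : Type) [Fintype T] [DecidableEq T] (A B : Finset T) (M : ℕ), 0 < M → (A ∪ B).Nonempty →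
    (Nat.card {l : T → Fin M // ¬ ∃ t ∈ A ∩ B, ∀ t' ∈ A ∪ B, t' ≠ t → l t < l t'} : ℝ) ≤
      (((A ∪ B) \ (A ∩ B)).card / ((A ∪ B).card : ℝ) + ((A ∪ B).card : ℝ) ^ 2 / M) *
        (M : ℝ) ^ (Fintype.card T)

/-- VAR. -/
def T_VAR : Prop :=
  ∀ (Z T : Type) [Fintype Z] [Fintype T] [DecidableEq T] (M K : ℕ), 0 < M →
    ∀ (X : Z → (T → Fin M) → ℝ) (nb : Z → Finset T),
    (∀ z l, 0 ≤ X z l ∧ X z l ≤ 1) →
    (∀ z l l', (∀ t ∈ nb z, l t = l' t) → X z l = X z l') →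
    (∀ z, Nat.card {z' : Z // ¬ Disjoint (nb z) (nb z')} ≤ K) →
    (∑ l : T → Fin M, |∑ z, X z l - (∑ l' : T → Fin M, ∑ z, X z l') / (M : ℝ) ^ (Fintype.card T)|) ≤
      (M : ℝ) ^ (Fintype.card T) * Real.sqrt (K * Fintype.card Z)

/-- EQUI. -/
def T_EQUI : Prop :=
  ∀ (r : ℕ) (J Ω Ω' : Type) [Fintype J] [Fintype Ω] [Fintype Ω'] (γ : J → FG r)
    (σ : FG r →* Equiv.Perm Ω) (σ' : FG r →* Equiv.Perm Ω') (m M : ℕ), 0 < M →
    m = Fintype.card J → ∀ (z : Ω) (z' : Ω'),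
    (∀ w ∈ EE γ, (σ w z = z ↔ σ' w z' = z')) → ∀ S : Set J,
    (Nat.card {l : Ω × Fin m → Fin M // Ty γ σ l z = S} : ℝ) / (M : ℝ) ^ (Fintype.card Ω * m) =
    (Nat.card {l : Ω' × Fin m → Fin M // Ty γ σ' l z' = S} : ℝ) / (M : ℝ) ^ (Fintype.card Ω' * m)

/-- MATCH: two finite F-sets of the same size with almost equal statistics, both almost
compatible with the Følner data `(J,γ,θ)`, are almost isomorphic. -/
def T_MATCH : Prop :=
  ∀ (r : ℕ) (J : Type) [Fintype J] [Nonempty J] (γ : J → FG r) (θ : Fin r → Equiv.Perm J)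
    (ε : ℝ), 0 < ε → ∃ (D : Finset (FG r)) (δ : ℝ) (n₀ : ℕ), 0 < δ ∧
    ∀ (Ω Ω' : Type) [Fintype Ω] [Fintype Ω'] (σ : FG r →* Equiv.Perm Ω)
      (σ' : FG r →* Equiv.Perm Ω') (η : ℝ), 0 ≤ η →
      Nat.card Ω = Nat.card Ω' → n₀ ≤ Nat.card Ω →
      (∀ P ∈ D.powerset, |freq σ D P - freq σ' D P| ≤ δ) →
      (∀ i, (Nat.card {q : J × Ω // σ (γ (θ i q.1)) q.2 ≠ σ (FreeGroup.of i * γ q.1) q.2} : ℝ) ≤
        η * Nat.card J * Nat.card Ω) →
      (∀ i, (Nat.card {q : J × Ω' // σ' (γ (θ i q.1)) q.2 ≠ σ' (FreeGroup.of i * γ q.1) q.2} : ℝ) ≤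
        η * Nat.card J * Nat.card Ω') →
      ∃ Φ : Ω ≃ Ω', ∀ i,
        (Nat.card {ω : Ω // Φ (σ (FreeGroup.of i) ω) ≠ σ' (FreeGroup.of i) (Φ ω)} : ℝ) ≤
          (4 * r * η + ε) * Nat.card Ω

/-- AMEN: Følner data for `F/N`. -/
def T_AMEN : Prop :=
  ∀ (r : ℕ) (R N : Subgroup (FG r)), R.Normal → N.Normal → commutator (FG r) ≤ R → N ≤ R →
    ⁅R, R⁆ ≤ N → ∀ η : ℝ, 0 < η → ∃ (J : Type) (_ : Fintype J) (_ : Nonempty J) (γ : J → FG r)
      (θ : Fin r → Equiv.Perm J), ∀ i,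
      (Nat.card {j : J // (FreeGroup.of i * γ j)⁻¹ * γ (θ i j) ∉ N} : ℝ) ≤ η * Nat.card J

/-! ## Part 2: the limit measure -/

/-- LIM. -/
def T_LIM : Prop :=
  ∀ (r : ℕ) (N : Subgroup (FG r)) (U : Ultrafilter ℕ) (n : ℕ → ℕ)
    (σ : ∀ k, FG r →* Equiv.Perm (Fin (n k))), (∀ k, 0 < n k) →
    (∀ w ∈ N, Tendsto (fun k => (Nat.card {ω : Fin (n k) // σ k w ω ≠ ω} : ℝ) / n k) U (𝓝 0)) →
    ∃ μ : Measure (XX r), IsIRS N μ ∧ ∀ D P : Finset (FG r), P ∈ D.powerset →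
      Tendsto (fun k => freq (σ k) D P) U (𝓝 (μ.real (cyl D P)))

/-! ## Part 3: structure of invariant random subgroups -/

/-- CO: finite orbits. -/
def T_CO : Prop :=
  ∀ (X : Type) [MeasurableSpace X] (Γ : Type) [Group Γ] [Countable Γ] [MulAction Γ X]
    (μ : Measure X), IsProbabilityMeasure μ → (∀ g : Γ, Measurable (fun x : X => g • x)) →
    (∀ g : Γ, μ.map (fun x : X => g • x) = μ) → (∀ g : Γ, MeasurableSet {x : X | g • x = x}) →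
    ∀ (idx : X → ℕ), Measurable idx → ∀ X₀ : Set X, (∀ᵐ x ∂μ, x ∈ X₀) →
    (∀ x ∈ X₀, ∀ g : Γ, g • x ∈ X₀) →
    (∀ x ∈ X₀, ∀ g : Γ, idx (g • x) = idx x → g • x = x) →
    ∀ᵐ x ∂μ, (MulAction.orbit Γ x).Finite

/-- FI: almost every `H` has a finite conjugacy class under `R`. -/
def T_FI : Prop :=
  ∀ (r : ℕ) (R N : Subgroup (FG r)), R.Normal → N.Normal → commutator (FG r) ≤ R → N ≤ R →
    ⁅R, R⁆ ≤ N → ∀ μ : Measure (XX r), IsIRS N μ → ∀ᵐ x ∂μ, {y | ∃ a ∈ R, y = conjX a x}.Finite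

/-- TILE: existence of tiles. -/
def T_TILE : Prop :=
  ∀ (r : ℕ) (R F₀ : Subgroup (FG r)), R.Normal → commutator (FG r) ≤ R → R ≤ F₀ →
    ∀ (B : Finset (FG r)) (ε : ℝ), 0 < ε → ∃ (V : Type) (_ : Fintype V) (_ : Nonempty V)
      (t : Tile R F₀ V),
      (Nat.card {v : V // ∃ w ∈ B, t.h w v ≠ (t.g (t.p w v))⁻¹ * w * t.g v} : ℝ) ≤
        ε * Nat.card V

/-- LOC: a finite `F/N`-set imitating `H` on the tile. -/
def T_LOC : Prop :=
  ∀ (r m : ℕ) (R : Subgroup (FG r)), R.Normal → commutator (FG r) ≤ R →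
    ∀ H : Subgroup (FG r), NN R m ≤ H →
    ∀ (O : Type) [Finite O] (c : O → Subgroup (FG r)), Function.Injective c →
    (∀ K : Subgroup (FG r), (∃ o, K = c o) ↔ ∃ a ∈ R, ∀ w, w ∈ K ↔ a⁻¹ * w * a ∈ H) →
    ∀ (V : Type) [Fintype V] [Nonempty V] (t : Tile R (H ⊔ R) V) (B : Finset (FG r)),
    ∃ (Y : Type) (_ : Fintype Y) (_ : Nonempty Y) (τ : FG r →* Equiv.Perm Y) (π : Y → V × O)
      (k : ℕ), NN R m ≤ τ.ker ∧ 0 < k ∧ (∀ q, Nat.card {y // π y = q} = k) ∧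
      ∀ y, ∀ w ∈ B, t.h w (π y).1 = (t.g (t.p w (π y).1))⁻¹ * w * t.g (π y).1 →
        (τ w y = y ↔ (t.g (π y).1)⁻¹ * w * t.g (π y).1 ∈ c (π y).2)

/-- EQD: multisets in a countable group which equidistribute on all finite orbits on which the
group acts commutatively. -/
def T_EQD : Prop :=
  ∀ (Γ : Type) [Group Γ] [Countable Γ], ∃ (K : ℕ → ℕ) (a : ∀ k, Fin (K k) → Γ), (∀ k, 0 < K k) ∧
    ∀ (Y : Type) [MulAction Γ Y] (y : Y) (hf : (MulAction.orbit Γ y).Finite),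
    (∀ g h : Γ, (g * h) • y = (h * g) • y) → ∃ k₀, ∀ k, k₀ ≤ k → ∀ ψ : Y → ℝ,
      (∑ i, ψ (a k i • y)) / K k = (∑ z ∈ hf.toFinset, ψ z) / hf.toFinset.card

/-- APPR: every invariant random subgroup of `F/N` is co-sofic. -/
def T_APPR : Prop :=
  ∀ (r m : ℕ) (R : Subgroup (FG r)), R.Normal → commutator (FG r) ≤ R →
    ∀ μ : Measure (XX r), IsIRS (NN R m) μ → ∀ (D : Finset (FG r)) (δ : ℝ), 0 < δ →
    ∃ (Y : Type) (_ : Fintype Y) (_ : Nonempty Y) (τ : FG r →* Equiv.Perm Y),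
      NN R m ≤ τ.ker ∧ ∀ P ∈ D.powerset, |freq τ D P - μ.real (cyl D P)| ≤ δ

/-! ## Part 4: final statements -/

/-- Permutation stability of a group (the formulation of the frozen statement). -/
def PermStable (G : Type) [Group G] : Prop :=
  ∀ (n : ℕ → ℕ) (f : ∀ k : ℕ, G → Equiv.Perm (Fin (n k))),
    (∀ g h : G, Tendsto
      (fun k : ℕ => ((Finset.univ.filter
        (fun i : Fin (n k) => f k (g * h) i ≠ (f k g * f k h) i)).card : ℝ) / (n k : ℝ))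
      atTop (𝓝 0)) →
    ∃ φ : ∀ k : ℕ, G →* Equiv.Perm (Fin (n k)),
      ∀ g : G, Tendsto
        (fun k : ℕ => ((Finset.univ.filter
          (fun i : Fin (n k) => f k g i ≠ φ k g i)).card : ℝ) / (n k : ℝ))
        atTop (𝓝 0)

/-- SEQ: almost actions are close to actions (ultrafilter form). -/
def T_SEQ : Prop :=
  ∀ (r m : ℕ) (R : Subgroup (FG r)), R.Normal → commutator (FG r) ≤ R →
    ∀ (U : Ultrafilter ℕ) (n : ℕ → ℕ) (σ : ∀ k, FG r →* Equiv.Perm (Fin (n k))),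
    (∀ k, 0 < n k) →
    (∀ w ∈ NN R m,
      Tendsto (fun k => (Nat.card {ω : Fin (n k) // σ k w ω ≠ ω} : ℝ) / n k) U (𝓝 0)) →
    ∀ ε : ℝ, 0 < ε → ∀ᶠ k in (U : Filter ℕ), ∃ ρ : FG r →* Equiv.Perm (Fin (n k)),
      NN R m ≤ ρ.ker ∧ ∀ i, (Nat.card {ω : Fin (n k) // σ k (FreeGroup.of i) ω ≠
        ρ (FreeGroup.of i) ω} : ℝ) ≤ ε * n k

/-- STAB: the final theorem, for an arbitrary group `G` with a surjection from a free group whose
kernel is `[R,R]R^m`. -/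
def T_STAB : Prop :=
  ∀ (r m : ℕ) (R : Subgroup (FG r)), R.Normal → commutator (FG r) ≤ R →
    ∀ (G : Type) [Group G] (π : FG r →* G), Function.Surjective π → π.ker = NN R m →
      PermStable G

end Pool.Agent.H10.PS
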