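/-
helper10: GLUE, part 1: tickets.
-/
import Pool.Agent.H10.PS.Targets

set_option autoImplicit false
set_option linter.unusedSectionVars false

open Finset

namespace Pool.Agent.H10.PS

namespace Glue

variable {r : ℕ} {J Ω Ω' : Type} [Fintype J] [Fintype Ω] [Fintype Ω']
  (γ : J → FG r) (σ : FG r →* Equiv.Perm Ω) (σ' : FG r →* Equiv.Perm Ω')

open Classical in
/-- Tickets as a finset. -/
noncomputable def TF (m : ℕ) (ω : Ω) : Finset (Ω × Fin m) :=
  univ.filter (fun t => (t.2 : ℕ) < mult γ σ ω t.1)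

lemma mem_TF (m : ℕ) (ω : Ω) (t : Ω × Fin m) : t ∈ TF γ σ m ω ↔ t ∈ Tick γ σ m ω := by
  simp [TF, Tick]

open Classical in
lemma mult_eq (ω c : Ω) : mult γ σ ω c = (univ.filter (fun j : J => σ (γ j) c = ω)).card := by
  rw [mult, Nat.card_eq_fintype_card, Fintype.card_subtype]

lemma mult_le (ω c : Ω) : mult γ σ ω c ≤ Fintype.card J := by
  classical
  rw [mult_eq]
  exact card_le_univ _

lemma sum_mult (ω : Ω) : ∑ c, mult γ σ ω c = Fintype.card J := by
  classical
  simp_rw [mult_eq, card_filter]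
  rw [sum_comm]
  have : ∀ j : J, ∑ c, (if σ (γ j) c = ω then 1 else 0) = 1 := by
    intro j
    rw [sum_eq_single ((σ (γ j)).symm ω)]
    · simp
    · intro b _ hb
      rw [if_neg]
      intro h
      exact hb (by rw [← h]; simp)
    · simp
  simp [this]

lemma card_TF_fiber (m : ℕ) (x : ℕ) (hx : x ≤ m) :
    (univ.filter (fun k : Fin m => (k : ℕ) < x)).card = x := by
  rw [Fin.card_filter_val_lt]
  omega

lemma card_filter_prod_lt {m : ℕ} (f : Ω → ℕ) (hf : ∀ c, f c ≤ m) :
    (univ.filter (fun t : Ω × Fin m => (t.2 : ℕ) < f t.1)).card = ∑ c, f c := by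
  classical
  rw [card_filter, ← univ_product_univ, sum_product]
  apply sum_congr rfl
  intro c _
  rw [← card_filter]
  exact card_TF_fiber m (f c) (hf c)

lemma card_TF (ω : Ω) : (TF γ σ (Fintype.card J) ω).card = Fintype.card J := by
  classical
  have := card_filter_prod_lt (Ω := Ω) (m := Fintype.card J) (fun c => mult γ σ ω c)
    (fun c => mult_le γ σ ω c)
  rw [sum_mult] at this
  rw [TF]
  convert this using 2

open Classical in
/-- number of bad pairs over `ω`. -/
noncomputable def bd (θ : Equiv.Perm J) (s : FG r) (ω : Ω) : ℕ :=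
  ((univ.filter (fun q : J × Ω => σ (γ (θ q.1)) q.2 ≠ σ (s * γ q.1) q.2)).filter
    (fun q => σ (γ q.1) q.2 = ω)).card

lemma sum_bd (θ : Equiv.Perm J) (s : FG r) :
    ∑ ω, bd γ σ θ s ω = Nat.card {q : J × Ω // σ (γ (θ q.1)) q.2 ≠ σ (s * γ q.1) q.2} := by
  classical
  rw [Nat.card_eq_fintype_card, Fintype.card_subtype]
  simp_rw [bd]
  rw [← card_eq_sum_card_fiberwise (f := fun q : J × Ω => σ (γ q.1) q.2) (t := univ)
    (s := univ.filter (fun q : J × Ω => σ (γ (θ q.1)) q.2 ≠ σ (s * γ q.1) q.2))]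
  intro q _
  simp

open Classical in
/-- bad `j` over a pair `(ω, c)`. -/
noncomputable def bdc (θ : Equiv.Perm J) (s : FG r) (ω c : Ω) : ℕ :=
  (univ.filter (fun j : J => σ (γ j) c = ω ∧ σ (γ (θ j)) c ≠ σ (s * γ j) c)).card

lemma sum_bdc (θ : Equiv.Perm J) (s : FG r) (ω : Ω) :
    ∑ c, bdc γ σ θ s ω c = bd γ σ θ s ω := by
  classical
  rw [bd]
  simp_rw [bdc]
  rw [card_eq_sum_card_fiberwise (f := fun q : J × Ω => q.2) (t := univ)]
  · apply sum_congr rfl
    intro c _
    apply card_bij (fun j _ => (j, c))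
    · intro j hj
      simp only [mem_filter, mem_univ, true_and] at hj ⊢
      exact ⟨⟨hj.2, hj.1⟩, trivial⟩
    · intro j _ j' _ h
      simpa using h
    · rintro ⟨j, c'⟩ h
      simp only [mem_filter, mem_univ, true_and] at h
      obtain ⟨⟨h1, h2⟩, rfl⟩ := h
      exact ⟨j, by simpa using ⟨h2, by simpa using h1⟩, rfl⟩
  · intro q _
    simp

lemma mult_shift (θ : Equiv.Perm J) (s : FG r) (ω c : Ω) :
    mult γ σ ω c ≤ mult γ σ (σ s ω) c + bdc γ σ θ s ω c := by
  classical
  have h1 : mult γ σ (σ s ω) c = (univ.filter (fun j : J => σ (γ (θ j)) c = σ s ω)).card := by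
    rw [mult_eq]
    apply card_bij (fun j _ => θ.symm j)
    · intro j hj
      simpa using hj
    · intro j _ j' _ h
      simpa using h
    · intro j hj
      exact ⟨θ j, by simpa using hj, by simp⟩
  rw [h1, mult_eq, bdc]
  calc (univ.filter (fun j : J => σ (γ j) c = ω)).card
      ≤ ((univ.filter (fun j : J => σ (γ (θ j)) c = σ s ω)) ∪
          (univ.filter (fun j : J => σ (γ j) c = ω ∧ σ (γ (θ j)) c ≠ σ (s * γ j) c))).card := by
        apply card_le_card
        intro j hj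
        simp only [mem_filter, mem_univ, true_and, mem_union] at hj ⊢
        by_cases h : σ (γ (θ j)) c = σ (s * γ j) c
        · left
          rw [h, map_mul, Equiv.Perm.mul_apply, hj]
        · exact Or.inr ⟨hj, h⟩
    _ ≤ _ := card_union_le _ _

lemma card_inter (θ : Equiv.Perm J) (s : FG r) (ω : Ω) [DecidableEq (Ω × Fin (Fintype.card J))] :
    Fintype.card J ≤ (TF γ σ (Fintype.card J) ω ∩ TF γ σ (Fintype.card J) (σ s ω)).card +
      bd γ σ θ s ω := by
  have h : (TF γ σ (Fintype.card J) ω ∩ TF γ σ (Fintype.card J) (σ s ω)).card =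
      ∑ c, min (mult γ σ ω c) (mult γ σ (σ s ω) c) := by
    rw [← card_filter_prod_lt (m := Fintype.card J) (fun c => min (mult γ σ ω c)
      (mult γ σ (σ s ω) c)) (fun c => (min_le_left _ _).trans (mult_le γ σ ω c))]
    congr 1
    ext t
    simp [TF]
  rw [h, ← sum_bdc γ σ θ s ω, ← sum_add_distrib, ← sum_mult γ σ ω]
  apply sum_le_sum
  intro c _
  have := mult_shift γ σ θ s ω c
  omega

lemma card_union' (s : FG r) (ω : Ω) [DecidableEq (Ω × Fin (Fintype.card J))] :
    (TF γ σ (Fintype.card J) ω ∪ TF γ σ (Fintype.card J) (σ s ω)).card +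
      (TF γ σ (Fintype.card J) ω ∩ TF γ σ (Fintype.card J) (σ s ω)).card =
      2 * Fintype.card J := by
  rw [card_union_add_card_inter, card_TF, card_TF]
  ring

/-- uniqueness of centres -/
lemma ctr_unique {m M : ℕ} (l : Ω × Fin m → Fin M) {ω z z' : Ω} (h : Ctr γ σ l ω z)
    (h' : Ctr γ σ l ω z') : z = z' := by
  obtain ⟨k, hk, h1⟩ := h
  obtain ⟨k', hk', h2⟩ := h'
  by_contra hne
  have a := h1 _ hk' (by intro e; exact hne (by simpa using (congrArg Prod.fst e).symm))
  have b := h2 _ hk (by intro e; exact hne (by simpa using (congrArg Prod.fst e)))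
  exact absurd (a.trans b) (lt_irrefl _)

lemma ctr_exists {m M : ℕ} (l : Ω × Fin m → Fin M) {ω z : Ω} (h : Ctr γ σ l ω z) :
    ∃ j, σ (γ j) z = ω := by
  obtain ⟨k, hk, _⟩ := h
  have : 0 < mult γ σ ω z := lt_of_le_of_lt (Nat.zero_le _) hk
  rw [mult, Nat.card_pos_iff] at this
  obtain ⟨⟨j, hj⟩⟩ := this.1
  exact ⟨j, hj⟩

lemma ctr_ty {m M : ℕ} (l : Ω × Fin m → Fin M) {ω z : Ω} (h : Ctr γ σ l ω z) {j : J}
    (hj : σ (γ j) z = ω) : j ∈ Ty γ σ l z := by
  subst hj
  exact h

end Glue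
end Pool.Agent.H10.PS
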