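/-
helper10: GLUE, part 2: deterministic matching.
-/
import Pool.Agent.H10.PS.Glue1

set_option autoImplicit false
set_option linter.unusedSectionVars false

open Finset

namespace Pool.Agent.H10.PS

namespace Glue

/-- partial matching of two finite sets -/
lemma exists_partial {A B : Type} [DecidableEq A] [Nonempty B] (C : Finset A) (C' : Finset B) :
    ∃ (S : Finset A) (f : A → B), S ⊆ C ∧ Set.InjOn f S ∧ (∀ a ∈ S, f a ∈ C') ∧
      (C \ S).card ≤ C.card - C'.card := by
  classical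
  obtain ⟨S, hS, hc⟩ := exists_subset_card_eq (s := C) (n := min C.card C'.card) (min_le_left _ _)
  have hle : S.card ≤ C'.card := by rw [hc]; exact min_le_right _ _
  obtain ⟨S', hS', hc'⟩ := exists_subset_card_eq (s := C') (n := S.card) hle
  have e : S ≃ S' := Finset.equivOfCardEq hc'.symm
  let b0 : B := Classical.arbitrary B
  refine ⟨S, fun a => if h : a ∈ S then (e ⟨a, h⟩ : B) else b0, hS, ?_, ?_, ?_⟩
  · intro a ha a' ha' h
    simp only [mem_coe] at ha ha'
    simp only [ha, ha', dif_pos] at h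
    have := e.injective (Subtype.ext h)
    simpa using this
  · intro a ha
    simp only [ha, dif_pos]
    exact hS' (e ⟨a, ha⟩).2
  · rw [card_sdiff_of_subset hS, hc]
    omega

lemma exists_match {A B T : Type} [Fintype A] [Fintype B] [DecidableEq A] [DecidableEq T]
    [Nonempty B] (ty : A → T) (ty' : B → T) (S : Finset T) (hS : ∀ a, ty a ∈ S) :
    ∃ (P : Finset A) (f : A → B), Set.InjOn f P ∧ (∀ a ∈ P, ty' (f a) = ty a) ∧
      (univ \ P).card ≤ ∑ t ∈ S, ((univ.filter (fun a => ty a = t)).card -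
        (univ.filter (fun b => ty' b = t)).card) := by
  choose Q g h1 h2 h3 h4 using fun t : T =>
    exists_partial (univ.filter (fun a => ty a = t)) (univ.filter (fun b => ty' b = t))
  refine ⟨univ.filter (fun a => a ∈ Q (ty a)), fun a => g (ty a) a, ?_, ?_, ?_⟩
  · intro a ha b hb hab
    simp only [coe_filter, mem_univ, true_and, Set.mem_ofPred_eq] at ha hb
    have ea := h3 _ _ ha
    have eb := h3 _ _ hb
    simp only [mem_filter, mem_univ, true_and] at ea eb
    have : ty a = ty b := by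
      rw [← ea, ← eb]
      exact congrArg ty' hab
    rw [← this] at hb
    have hab' : g (ty a) a = g (ty a) b := by
      have h := hab
      simp only [← this] at h
      exact h
    exact h2 (ty a) ha hb hab'
  · intro a ha
    simp only [mem_filter, mem_univ, true_and] at ha
    have ea := h3 _ _ ha
    simpa using ea
  · rw [card_eq_sum_card_fiberwise (f := ty) (t := S)]
    · apply sum_le_sum
      intro t _
      refine le_trans (card_le_card ?_) (h4 t)
      intro a ha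
      simp only [mem_filter, mem_sdiff, mem_univ, true_and] at ha ⊢
      obtain ⟨h, rfl⟩ := ha
      exact ⟨rfl, h⟩
    · intro a _
      exact hS a

variable {r : ℕ} {J Ω Ω' : Type} [Fintype J] [Fintype Ω] [Fintype Ω']
  (γ : J → FG r) (σ : FG r →* Equiv.Perm Ω) (σ' : FG r →* Equiv.Perm Ω')

open Classical in
/-- full type of a point -/
noncomputable def ft (D : Finset (FG r)) {m M : ℕ} (l : Ω × Fin m → Fin M) (z : Ω) :
    Finset J × Finset (FG r) :=
  (univ.filter (fun j => j ∈ Ty γ σ l z), D.filter (fun w => σ w z = z))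

lemma fix_iff {D : Finset (FG r)} {m M : ℕ} {l : Ω × Fin m → Fin M} {l' : Ω' × Fin m → Fin M}
    {z : Ω} {z' : Ω'} (h : ft γ σ D l z = ft γ σ' D l' z') {w : FG r} (hw : w ∈ D) :
    σ w z = z ↔ σ' w z' = z' := by
  classical
  have h2 := congrArg Prod.snd h
  have := Finset.ext_iff.mp h2 w
  simpa [ft, hw] using this

lemma ty_iff {D : Finset (FG r)} {m M : ℕ} {l : Ω × Fin m → Fin M} {l' : Ω' × Fin m → Fin M}
    {z : Ω} {z' : Ω'} (h : ft γ σ D l z = ft γ σ' D l' z') (j : J) :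
    j ∈ Ty γ σ l z ↔ j ∈ Ty γ σ' l' z' := by
  classical
  have h2 := congrArg Prod.fst h
  have := Finset.ext_iff.mp h2 j
  simpa [ft] using this

lemma eq_iff_fix {Ω : Type} (σ : FG r →* Equiv.Perm Ω) (a b : FG r) (z : Ω) :
    σ a z = σ b z ↔ σ (a⁻¹ * b) z = z := by
  rw [map_mul, Equiv.Perm.mul_apply, map_inv, Equiv.Perm.inv_eq_iff_eq]
  exact eq_comm

lemma mem_EE2 (a b : J) : (γ a)⁻¹ * γ b ∈ EE γ := ⟨a, b, b, b, by group⟩

open Classical in
theorem det [Nonempty Ω'] (hcard : Fintype.card Ω = Fintype.card Ω') (D : Finset (FG r))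
    (hE : ∀ w ∈ EE γ, w ∈ D)
    (hD : ∀ (i : Fin r) (j j' : J), (FreeGroup.of i * γ j)⁻¹ * γ j' ∈ D) {m M : ℕ}
    (l : Ω × Fin m → Fin M) (l' : Ω' × Fin m → Fin M) :
    ∃ Φ : Ω ≃ Ω', ∀ i : Fin r,
      (univ.filter (fun ω => Φ (σ (FreeGroup.of i) ω) ≠ σ' (FreeGroup.of i) (Φ ω))).card ≤
      (univ.filter (fun ω => ¬ ∃ z, Ctr γ σ l ω z ∧ Ctr γ σ l (σ (FreeGroup.of i) ω) z)).card +
      Fintype.card J * ∑ t ∈ (univ : Finset (Finset J)) ×ˢ D.powerset,
        ((univ.filter (fun z => ft γ σ D l z = t)).card -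
          (univ.filter (fun z' => ft γ σ' D l' z' = t)).card) := by
  obtain ⟨P, f, hinj, hty, hcount⟩ := exists_match (ft γ σ D l) (ft γ σ' D l')
    ((univ : Finset (Finset J)) ×ˢ D.powerset) (by
      intro z
      simp [ft])
  -- the partial map
  let dom : Finset Ω := univ.filter (fun ω => ∃ z ∈ P, Ctr γ σ l ω z)
  have hdom : ∀ ω ∈ dom, ∃ z ∈ P, Ctr γ σ l ω z := by
    intro ω hω
    simpa [dom] using hω
  let F : Ω → Ω' := fun ω => if h : ∃ z ∈ P, Ctr γ σ l ω z then
      σ' (γ (ctr_exists γ σ l h.choose_spec.2).choose) (f h.choose)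
    else Classical.arbitrary Ω'
  have hF : ∀ ω z, z ∈ P → Ctr γ σ l ω z → ∀ j, σ (γ j) z = ω → F ω = σ' (γ j) (f z) := by
    intro ω z hz hc j hj
    have h : ∃ z ∈ P, Ctr γ σ l ω z := ⟨z, hz, hc⟩
    have hzz : h.choose = z := ctr_unique γ σ l h.choose_spec.2 hc
    have e : F ω = σ' (γ (ctr_exists γ σ l h.choose_spec.2).choose) (f h.choose) := by
      simp only [F, dif_pos h]
    rw [e]
    have hj' := (ctr_exists γ σ l h.choose_spec.2).choose_spec
    set j' := (ctr_exists γ σ l h.choose_spec.2).choose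
    rw [hzz] at hj' ⊢
    have h1 : σ (γ j') z = σ (γ j) z := by rw [hj', hj]
    rw [eq_iff_fix] at h1 ⊢
    exact (fix_iff γ σ σ' (hty z hz).symm (hE _ (mem_EE2 γ _ _))).mp h1
  have hFinj : Set.InjOn F dom := by
    intro ω₁ h₁ ω₂ h₂ he
    obtain ⟨z₁, hz₁, hc₁⟩ := hdom ω₁ h₁
    obtain ⟨z₂, hz₂, hc₂⟩ := hdom ω₂ h₂
    obtain ⟨j₁, hj₁⟩ := ctr_exists γ σ l hc₁
    obtain ⟨j₂, hj₂⟩ := ctr_exists γ σ l hc₂
    rw [hF ω₁ z₁ hz₁ hc₁ j₁ hj₁, hF ω₂ z₂ hz₂ hc₂ j₂ hj₂] at he
    have t₁ : j₁ ∈ Ty γ σ' l' (f z₁) :=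
      (ty_iff γ σ σ' (hty z₁ hz₁).symm j₁).mp (ctr_ty γ σ l hc₁ hj₁)
    have t₂ : j₂ ∈ Ty γ σ' l' (f z₂) :=
      (ty_iff γ σ σ' (hty z₂ hz₂).symm j₂).mp (ctr_ty γ σ l hc₂ hj₂)
    have t₁' : Ctr γ σ' l' (σ' (γ j₁) (f z₁)) (f z₁) := t₁
    have t₂' : Ctr γ σ' l' (σ' (γ j₂) (f z₂)) (f z₂) := t₂
    rw [← he] at t₂'
    have hz := hinj hz₁ hz₂ (ctr_unique γ σ' l' t₁' t₂')
    subst hz
    rw [eq_iff_fix] at he
    have := (fix_iff γ σ σ' (hty z₁ hz₁).symm (hE _ (mem_EE2 γ _ _))).mpr he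
    rw [← eq_iff_fix] at this
    rw [← hj₁, ← hj₂, this]
  obtain ⟨g, hg⟩ := Finset.exists_equiv_extend_of_card_eq (t := (univ : Finset Ω'))
    (by rw [hcard]; rfl) (s := dom) (f := F) (subset_univ _) hFinj
  let Φ : Ω ≃ Ω' := g.trans (Equiv.subtypeUnivEquiv (by simp))
  have hΦ : ∀ ω ∈ dom, Φ ω = F ω := fun ω h => hg ω h
  refine ⟨Φ, fun i => ?_⟩
  set s : FG r := FreeGroup.of i
  have hun : (univ.filter (fun ω => ∃ z, z ∉ P ∧ Ctr γ σ l ω z)).card ≤
      Fintype.card J * (univ \ P).card := by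
    calc (univ.filter (fun ω => ∃ z, z ∉ P ∧ Ctr γ σ l ω z)).card
        ≤ ((univ ×ˢ (univ \ P) : Finset (J × Ω)).image (fun q => σ (γ q.1) q.2)).card := by
          apply card_le_card
          intro ω hω
          simp only [mem_filter, mem_univ, true_and] at hω
          obtain ⟨z, hz, hc⟩ := hω
          obtain ⟨j, hj⟩ := ctr_exists γ σ l hc
          simp only [mem_image, mem_product, mem_univ, mem_sdiff, true_and, Prod.exists]
          exact ⟨j, z, hz, hj⟩
      _ ≤ (univ ×ˢ (univ \ P) : Finset (J × Ω)).card := card_image_le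
      _ = _ := by rw [card_product, card_univ]
  calc (univ.filter (fun ω => Φ (σ s ω) ≠ σ' s (Φ ω))).card
      ≤ ((univ.filter (fun ω => ¬ ∃ z, Ctr γ σ l ω z ∧ Ctr γ σ l (σ s ω) z)) ∪
          (univ.filter (fun ω => ∃ z, z ∉ P ∧ Ctr γ σ l ω z))).card := by
        apply card_le_card
        intro ω hω
        simp only [mem_filter, mem_univ, true_and, mem_union] at hω ⊢
        by_contra hcon
        push Not at hcon
        obtain ⟨⟨z, hc, hcs⟩, h2⟩ := hcon
        have hz : z ∈ P := by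
          by_contra h
          exact h2 z h hc
        apply hω
        obtain ⟨j, hj⟩ := ctr_exists γ σ l hc
        obtain ⟨j', hj'⟩ := ctr_exists γ σ l hcs
        rw [hΦ ω (by simp only [dom, mem_filter, mem_univ, true_and]; exact ⟨z, hz, hc⟩),
          hΦ (σ s ω) (by simp only [dom, mem_filter, mem_univ, true_and]; exact ⟨z, hz, hcs⟩),
          hF ω z hz hc j hj, hF (σ s ω) z hz hcs j' hj']
        have e1 : σ (s * γ j) z = σ (γ j') z := by
          rw [map_mul, Equiv.Perm.mul_apply, hj, hj']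
        rw [eq_iff_fix] at e1
        have e2 := (fix_iff γ σ σ' (hty z hz).symm (hD i j j')).mp e1
        rw [← eq_iff_fix] at e2
        rw [← e2, map_mul, Equiv.Perm.mul_apply]
    _ ≤ _ := card_union_le _ _
    _ ≤ _ := by
        apply Nat.add_le_add_left
        exact hun.trans (Nat.mul_le_mul_left _ hcount)

end Glue
end Pool.Agent.H10.PS
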