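/-
helper10: GLUE, part 3: expectations.
-/
import Pool.Agent.H10.PS.Glue2

set_option autoImplicit false
set_option linter.unusedSectionVars false

open Finset

namespace Pool.Agent.H10.PS

namespace Glue

variable {r : ℕ} {J Ω Ω' : Type} [Fintype J] [Fintype Ω] [Fintype Ω']
  (γ : J → FG r) (σ : FG r →* Equiv.Perm Ω) (σ' : FG r →* Equiv.Perm Ω')

open Classical in
lemma ectr_sum (h1 : T_CLOCK) [Nonempty J] {M : ℕ} (hM : 0 < M) (θ : Equiv.Perm J) (s : FG r)
    (η : ℝ)
    (hη : (Nat.card {q : J × Ω // σ (γ (θ q.1)) q.2 ≠ σ (s * γ q.1) q.2} : ℝ) ≤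
        η * Fintype.card J * Fintype.card Ω) :
    (∑ l : Ω × Fin (Fintype.card J) → Fin M,
      ((univ.filter (fun ω => ¬ ∃ z, Ctr γ σ l ω z ∧ Ctr γ σ l (σ s ω) z)).card : ℝ)) ≤
    (2 * η + 4 * (Fintype.card J : ℝ) ^ 2 / M) * Fintype.card Ω *
      (M : ℝ) ^ (Fintype.card (Ω × Fin (Fintype.card J))) := by
  set m := Fintype.card J with hm
  have hmpos : 0 < m := Fintype.card_pos
  have hmR : (0 : ℝ) < m := by exact_mod_cast hmpos
  have hMR : (0 : ℝ) < M := by exact_mod_cast hM
  set TT := (M : ℝ) ^ (Fintype.card (Ω × Fin m)) with hTT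
  have hTTpos : 0 < TT := by positivity
  have e1 : (∑ l : Ω × Fin m → Fin M,
      ((univ.filter (fun ω => ¬ ∃ z, Ctr γ σ l ω z ∧ Ctr γ σ l (σ s ω) z)).card : ℝ)) =
      ∑ ω, ((univ.filter (fun l : Ω × Fin m → Fin M =>
        ¬ ∃ z, Ctr γ σ l ω z ∧ Ctr γ σ l (σ s ω) z)).card : ℝ) := by
    simp_rw [card_filter]
    push_cast
    rw [sum_comm]
  rw [e1]
  have e2 : ∀ ω, ((univ.filter (fun l : Ω × Fin m → Fin M =>
        ¬ ∃ z, Ctr γ σ l ω z ∧ Ctr γ σ l (σ s ω) z)).card : ℝ) ≤
        (2 * bd γ σ θ s ω / m + 4 * (m : ℝ) ^ 2 / M) * TT := by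
    intro ω
    set A := TF γ σ m ω
    set B := TF γ σ m (σ s ω)
    have hA : A.card = m := card_TF γ σ ω
    have hB : B.card = m := card_TF γ σ (σ s ω)
    have hne : (A ∪ B).Nonempty := by
      have : A.Nonempty := by
        rw [← card_pos, hA]; exact hmpos
      exact this.mono subset_union_left
    have hc := h1 (Ω × Fin m) A B M hM hne
    have hle : ((univ.filter (fun l : Ω × Fin m → Fin M =>
        ¬ ∃ z, Ctr γ σ l ω z ∧ Ctr γ σ l (σ s ω) z)).card : ℝ) ≤
        (Nat.card {l : Ω × Fin m → Fin M //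
          ¬ ∃ t ∈ A ∩ B, ∀ t' ∈ A ∪ B, t' ≠ t → l t < l t'} : ℝ) := by
      rw [Nat.card_eq_fintype_card, Fintype.card_subtype]
      norm_cast
      apply card_le_card
      intro l hl
      simp only [mem_filter, mem_univ, true_and] at hl ⊢
      rintro ⟨t, ht, hmin⟩
      apply hl
      rw [mem_inter] at ht
      refine ⟨t.1, ⟨t.2, (mem_TF γ σ m ω t).mp ht.1, ?_⟩, ⟨t.2, (mem_TF γ σ m _ t).mp ht.2, ?_⟩⟩
      · intro t' ht' hne'
        exact hmin t' (mem_union_left _ ((mem_TF γ σ m ω t').mpr ht')) hne'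
      · intro t' ht' hne'
        exact hmin t' (mem_union_right _ ((mem_TF γ σ m _ t').mpr ht')) hne'
    refine hle.trans (hc.trans ?_)
    apply mul_le_mul_of_nonneg_right _ hTTpos.le
    have hu : (A ∪ B).card + (A ∩ B).card = 2 * m := by
      rw [card_union_add_card_inter, hA, hB]; ring
    have hi : m ≤ (A ∩ B).card + bd γ σ θ s ω := card_inter γ σ θ s ω
    have hge : m ≤ (A ∪ B).card := by
      calc m = A.card := hA.symm
        _ ≤ _ := card_le_card subset_union_left
    have hd : ((A ∪ B) \ (A ∩ B)).card + (A ∩ B).card = (A ∪ B).card :=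
      card_sdiff_add_card_eq_card (inter_subset_left.trans subset_union_left)
    have hd2 : ((A ∪ B) \ (A ∩ B)).card ≤ 2 * bd γ σ θ s ω := by omega
    have hu2 : (A ∪ B).card ≤ 2 * m := by omega
    have hgeR : (m : ℝ) ≤ ((A ∪ B).card : ℝ) := by exact_mod_cast hge
    have hd2R : (((A ∪ B) \ (A ∩ B)).card : ℝ) ≤ 2 * bd γ σ θ s ω := by exact_mod_cast hd2
    have hu2R : ((A ∪ B).card : ℝ) ≤ 2 * m := by exact_mod_cast hu2
    have p1 : ((((A ∪ B) \ (A ∩ B)).card : ℝ)) / ((A ∪ B).card : ℝ) ≤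
        2 * bd γ σ θ s ω / m := by
      apply div_le_div₀ (by positivity) hd2R hmR hgeR
    have p2 : ((A ∪ B).card : ℝ) ^ 2 / M ≤ 4 * (m : ℝ) ^ 2 / M := by
      apply div_le_div_of_nonneg_right _ hMR.le
      nlinarith [hu2R, hgeR, hmR]
    linarith
  calc (∑ ω, ((univ.filter (fun l : Ω × Fin m → Fin M =>
        ¬ ∃ z, Ctr γ σ l ω z ∧ Ctr γ σ l (σ s ω) z)).card : ℝ))
      ≤ ∑ ω, (2 * bd γ σ θ s ω / m + 4 * (m : ℝ) ^ 2 / M) * TT := sum_le_sum fun ω _ => e2 ω
    _ = (2 * (∑ ω, (bd γ σ θ s ω : ℝ)) / m + 4 * (m : ℝ) ^ 2 / M * Fintype.card Ω) * TT := by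
        rw [← sum_mul, sum_add_distrib, sum_const, card_univ, nsmul_eq_mul, ← sum_div,
          ← mul_sum]
        ring
    _ ≤ (2 * (η * m * Fintype.card Ω) / m + 4 * (m : ℝ) ^ 2 / M * Fintype.card Ω) * TT := by
        apply mul_le_mul_of_nonneg_right _ hTTpos.le
        have : (∑ ω, (bd γ σ θ s ω : ℝ)) ≤ η * m * Fintype.card Ω := by
          have := sum_bd γ σ θ s
          rw [← this] at hη
          push_cast at hη
          exact hη
        gcongr
    _ = _ := by
        field_simp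

/-- neighbourhood of tickets on which the type of `z` depends -/
noncomputable def nbh (m : ℕ) (z : Ω) [DecidableEq Ω] : Finset (Ω × Fin m) :=
  (univ.image (fun q : J × J => σ ((γ q.1)⁻¹ * γ q.2) z)) ×ˢ univ

lemma ctr_congr {m M : ℕ} {l l' : Ω × Fin m → Fin M} {ω z : Ω}
    (h : ∀ t ∈ Tick γ σ m ω, l t = l' t) : Ctr γ σ l ω z ↔ Ctr γ σ l' ω z := by
  constructor
  · rintro ⟨k, hk, h2⟩
    refine ⟨k, hk, fun t ht hne => ?_⟩
    rw [← h _ hk, ← h _ ht]
    exact h2 t ht hne
  · rintro ⟨k, hk, h2⟩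
    refine ⟨k, hk, fun t ht hne => ?_⟩
    rw [h _ hk, h _ ht]
    exact h2 t ht hne

lemma ty_congr [DecidableEq Ω] {m M : ℕ} {l l' : Ω × Fin m → Fin M} {z : Ω}
    (h : ∀ t ∈ nbh γ σ m z, l t = l' t) : Ty γ σ l z = Ty γ σ l' z := by
  ext j
  apply ctr_congr
  rintro ⟨c, k⟩ ht
  apply h
  have hpos : 0 < mult γ σ (σ (γ j) z) c := lt_of_le_of_lt (Nat.zero_le _) ht
  rw [mult, Nat.card_pos_iff] at hpos
  obtain ⟨⟨a, ha⟩⟩ := hpos.1
  simp only [nbh, mem_product, mem_image, mem_univ, true_and, and_true, Prod.exists]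
  refine ⟨a, j, ?_⟩
  rw [map_mul, Equiv.Perm.mul_apply, ← ha, map_inv]
  simp

lemma card_nbh [DecidableEq Ω] (m : ℕ) (z : Ω) :
    Nat.card {z' : Ω // ¬ Disjoint (nbh γ σ m z) (nbh γ σ m z')} ≤ Fintype.card J ^ 4 := by
  classical
  rw [Nat.card_eq_fintype_card, Fintype.card_subtype]
  calc (univ.filter (fun z' => ¬ Disjoint (nbh γ σ m z) (nbh γ σ m z'))).card
      ≤ ((univ : Finset ((J × J) × (J × J))).image
          (fun q => (σ ((γ q.2.1)⁻¹ * γ q.2.2))⁻¹ (σ ((γ q.1.1)⁻¹ * γ q.1.2) z))).card := by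
        apply card_le_card
        intro z' hz'
        simp only [mem_filter, mem_univ, true_and] at hz'
        rw [Finset.not_disjoint_iff] at hz'
        obtain ⟨t, h1, h2⟩ := hz'
        simp only [nbh, mem_product, mem_image, mem_univ, true_and, and_true, Prod.exists] at h1 h2
        obtain ⟨a, b, hab⟩ := h1
        obtain ⟨c, d, hcd⟩ := h2
        simp only [mem_image, mem_univ, true_and, Prod.exists]
        refine ⟨a, b, c, d, ?_⟩
        rw [hab, ← hcd]
        simp
    _ ≤ (univ : Finset ((J × J) × (J × J))).card := card_image_le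
    _ = _ := by
        rw [card_univ]
        simp only [Fintype.card_prod]
        ring

open Classical in
/-- the average number of points of type `t` -/
noncomputable def av (D : Finset (FG r)) (m M : ℕ) (t : Finset J × Finset (FG r)) : ℝ :=
  (∑ l : Ω × Fin m → Fin M, ((univ.filter (fun z => ft γ σ D l z = t)).card : ℝ)) /
    (M : ℝ) ^ (Fintype.card (Ω × Fin m))

open Classical in
lemma var_bound (h2 : T_VAR) (D : Finset (FG r)) {m M : ℕ} (hM : 0 < M)
    (t : Finset J × Finset (FG r)) :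
    (∑ l : Ω × Fin m → Fin M, |((univ.filter (fun z => ft γ σ D l z = t)).card : ℝ) -
      av γ σ D m M t|) ≤ (M : ℝ) ^ (Fintype.card (Ω × Fin m)) *
        Real.sqrt ((Fintype.card J ^ 4 : ℕ) * Fintype.card Ω) := by
  have := h2 Ω (Ω × Fin m) M (Fintype.card J ^ 4) hM
    (fun z l => if ft γ σ D l z = t then (1 : ℝ) else 0) (fun z => nbh γ σ m z)
    (fun z l => by
      show (0 : ℝ) ≤ (if _ then _ else _) ∧ (if _ then (1 : ℝ) else 0) ≤ 1
      split_ifs <;> norm_num)
    (fun z l l' h => by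
      show (if _ then (1 : ℝ) else 0) = (if _ then (1 : ℝ) else 0)
      have e : ft γ σ D l z = ft γ σ D l' z := by
        simp only [ft, ty_congr γ σ h]
      rw [e])
    (fun z => card_nbh γ σ m z)
  simp only [av, card_filter] at this ⊢
  push_cast at this ⊢
  exact this

open Classical in
lemma av_nonneg (D : Finset (FG r)) (m M : ℕ) (t : Finset J × Finset (FG r)) :
    0 ≤ av γ σ D m M t := by
  unfold av
  positivity

open Classical in
/-- the probability that the type of `z` is `S`-/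
noncomputable def pr (m M : ℕ) (z : Ω) (S : Finset J) : ℝ :=
  (Nat.card {l : Ω × Fin m → Fin M // Ty γ σ l z = (S : Set J)} : ℝ) /
    (M : ℝ) ^ (Fintype.card Ω * m)

lemma pr_nonneg (m M : ℕ) (z : Ω) (S : Finset J) : 0 ≤ pr γ σ m M z S := by
  unfold pr
  positivity

lemma pr_le_one {m M : ℕ} (hM : 0 < M) (z : Ω) (S : Finset J) : pr γ σ m M z S ≤ 1 := by
  classical
  unfold pr
  rw [div_le_one (by positivity)]
  calc (Nat.card {l : Ω × Fin m → Fin M // Ty γ σ l z = (S : Set J)} : ℝ)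
      ≤ (Nat.card (Ω × Fin m → Fin M) : ℝ) := by
        norm_cast
        exact Nat.card_le_card_of_injective _ Subtype.val_injective
    _ = _ := by
        rw [Nat.card_eq_fintype_card]
        simp

open Classical in
lemma av_eq (D : Finset (FG r)) {m M : ℕ} (t : Finset J × Finset (FG r)) :
    av γ σ D m M t = ∑ z ∈ univ.filter (fun z : Ω => D.filter (fun w => σ w z = z) = t.2),
      pr γ σ m M z t.1 := by
  have hc : Fintype.card (Ω × Fin m) = Fintype.card Ω * m := by simp
  unfold av pr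
  rw [hc, ← sum_div]
  congr 1
  have : ∀ l : Ω × Fin m → Fin M, ((univ.filter (fun z => ft γ σ D l z = t)).card : ℝ) =
      ∑ z ∈ univ.filter (fun z : Ω => D.filter (fun w => σ w z = z) = t.2),
        (if Ty γ σ l z = (t.1 : Set J) then (1 : ℝ) else 0) := by
    intro l
    rw [card_filter]
    push_cast
    rw [sum_filter]
    apply sum_congr rfl
    intro z _
    by_cases h1 : D.filter (fun w => σ w z = z) = t.2
    · rw [if_pos h1]
      by_cases h2 : Ty γ σ l z = (t.1 : Set J)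
      · rw [if_pos h2, if_pos]
        apply Prod.ext
        · ext j
          simp [ft, h2]
        · exact h1
      · rw [if_neg h2, if_neg]
        intro h
        apply h2
        have := congrArg Prod.fst h
        ext j
        have := Finset.ext_iff.mp this j
        simpa [ft] using this
    · rw [if_neg h1, if_neg]
      intro h
      exact h1 (congrArg Prod.snd h)
  simp_rw [this]
  rw [sum_comm]
  apply sum_congr rfl
  intro z _
  rw [Nat.card_eq_fintype_card, Fintype.card_subtype, card_filter]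
  push_cast
  rfl

open Classical in
lemma pr_eq (h3 : T_EQUI) {M : ℕ} (hM : 0 < M) (D : Finset (FG r)) (hE : ∀ w ∈ EE γ, w ∈ D)
    (z : Ω) (z' : Ω') (h : D.filter (fun w => σ w z = z) = D.filter (fun w => σ' w z' = z'))
    (S : Finset J) :
    pr γ σ (Fintype.card J) M z S = pr γ σ' (Fintype.card J) M z' S := by
  apply h3 r J Ω Ω' γ σ σ' (Fintype.card J) M hM rfl z z' _ S
  intro w hw
  have := Finset.ext_iff.mp h w
  simpa [hE w hw] using this

open Classical in
lemma av_diff (h3 : T_EQUI) {M : ℕ} (hM : 0 < M) (D : Finset (FG r)) (hE : ∀ w ∈ EE γ, w ∈ D)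
    (t : Finset J × Finset (FG r)) :
    |av γ σ D (Fintype.card J) M t - av γ σ' D (Fintype.card J) M t| ≤
      |((univ.filter (fun z : Ω => D.filter (fun w => σ w z = z) = t.2)).card : ℝ) -
        ((univ.filter (fun z : Ω' => D.filter (fun w => σ' w z = z) = t.2)).card : ℝ)| := by
  set Z := univ.filter (fun z : Ω => D.filter (fun w => σ w z = z) = t.2) with hZ
  set Z' := univ.filter (fun z : Ω' => D.filter (fun w => σ' w z = z) = t.2) with hZ'
  rw [av_eq, av_eq]
  rcases Z.eq_empty_or_nonempty with h0 | ⟨z0, hz0⟩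
  · rcases Z'.eq_empty_or_nonempty with h0' | ⟨z0', hz0'⟩
    · rw [← hZ, ← hZ', h0, h0']
      simp
    · rw [← hZ, ← hZ', h0]
      simp only [sum_empty, zero_sub, card_empty, Nat.cast_zero, abs_neg]
      rw [abs_of_nonneg (sum_nonneg fun z _ => pr_nonneg γ σ' _ _ z _),
        abs_of_nonneg (by positivity)]
      calc _ ≤ ∑ z ∈ Z', (1 : ℝ) := sum_le_sum fun z _ => pr_le_one γ σ' hM z _
        _ = _ := by simp
  · have e1 : ∑ z ∈ Z, pr γ σ (Fintype.card J) M z t.1 =
        Z.card * pr γ σ (Fintype.card J) M z0 t.1 := by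
      rw [sum_congr rfl (g := fun _ => pr γ σ (Fintype.card J) M z0 t.1), sum_const, nsmul_eq_mul]
      intro z hz
      apply pr_eq γ σ σ h3 hM D hE
      rw [hZ, mem_filter] at hz hz0
      rw [hz.2, hz0.2]
    have e2 : ∑ z ∈ Z', pr γ σ' (Fintype.card J) M z t.1 =
        Z'.card * pr γ σ (Fintype.card J) M z0 t.1 := by
      rw [sum_congr rfl (g := fun _ => pr γ σ (Fintype.card J) M z0 t.1), sum_const, nsmul_eq_mul]
      intro z hz
      apply (pr_eq γ σ σ' h3 hM D hE _ _ _ _).symm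
      rw [hZ, mem_filter] at hz0
      rw [hZ', mem_filter] at hz
      rw [hz.2, hz0.2]
    rw [← hZ, ← hZ', e1, e2, ← sub_mul, abs_mul]
    calc _ ≤ |(Z.card : ℝ) - Z'.card| * 1 := by
          apply mul_le_mul_of_nonneg_left _ (abs_nonneg _)
          rw [abs_of_nonneg (pr_nonneg γ σ _ _ _ _)]
          exact pr_le_one γ σ hM _ _
      _ = _ := mul_one _

end Glue
end Pool.Agent.H10.PS
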