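/-
helper10: GLUE: T_CLOCK → T_VAR → T_EQUI → T_MATCH.
-/
import Pool.Agent.H10.PS.Glue3

set_option autoImplicit false
set_option linter.unusedSectionVars false

open Finset

namespace Pool.Agent.H10.PS

namespace Glue

variable {r : ℕ} {J Ω Ω' : Type} [Fintype J] [Fintype Ω] [Fintype Ω']
  (γ : J → FG r) (σ : FG r →* Equiv.Perm Ω) (σ' : FG r →* Equiv.Perm Ω')

open Classical in
/-- total defect of a labelling -/
noncomputable def YY (D : Finset (FG r)) (m : ℕ) {M : ℕ} (l : Ω × Fin m → Fin M) : ℝ :=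
  (∑ i : Fin r, ((univ.filter (fun ω => ¬ ∃ z, Ctr γ σ l ω z ∧
    Ctr γ σ l (σ (FreeGroup.of i) ω) z)).card : ℝ)) +
  m * ∑ t ∈ (univ : Finset (Finset J)) ×ˢ D.powerset,
    |((univ.filter (fun z => ft γ σ D l z = t)).card : ℝ) - av γ σ D m M t|

open Classical in
lemma exists_good (h1 : T_CLOCK) (h2 : T_VAR) [Nonempty J] {M : ℕ} (hM : 0 < M)
    (D : Finset (FG r)) (θ : Fin r → Equiv.Perm J) (η : ℝ)
    (hη : ∀ i, (Nat.card {q : J × Ω // σ (γ (θ i q.1)) q.2 ≠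
      σ (FreeGroup.of i * γ q.1) q.2} : ℝ) ≤ η * Fintype.card J * Fintype.card Ω) :
    ∃ l : Ω × Fin (Fintype.card J) → Fin M, YY γ σ D (Fintype.card J) l ≤
      r * ((2 * η + 4 * (Fintype.card J : ℝ) ^ 2 / M) * Fintype.card Ω) +
      Fintype.card J * (((univ : Finset (Finset J)) ×ˢ D.powerset).card *
        Real.sqrt ((Fintype.card J ^ 4 : ℕ) * Fintype.card Ω)) := by
  set m := Fintype.card J with hm
  set TT := (M : ℝ) ^ (Fintype.card (Ω × Fin m)) with hTT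
  have hMR : (0 : ℝ) < M := by exact_mod_cast hM
  have hTTpos : 0 < TT := by positivity
  have : NeZero M := ⟨hM.ne'⟩
  set Bd : ℝ := r * ((2 * η + 4 * (m : ℝ) ^ 2 / M) * Fintype.card Ω) +
      m * (((univ : Finset (Finset J)) ×ˢ D.powerset).card *
        Real.sqrt ((m ^ 4 : ℕ) * Fintype.card Ω)) with hBd
  have hsum : ∑ l : Ω × Fin m → Fin M, YY γ σ D m l ≤ ∑ l : Ω × Fin m → Fin M, Bd := by
    have hcard : ∑ l : Ω × Fin m → Fin M, Bd = TT * Bd := by
      rw [sum_const, card_univ, nsmul_eq_mul, hTT]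
      congr 1
      simp [Fintype.card_pi]
    rw [hcard]
    have b1 : ∑ l : Ω × Fin m → Fin M, YY γ σ D m l =
        (∑ i : Fin r, ∑ l : Ω × Fin m → Fin M, ((univ.filter (fun ω => ¬ ∃ z, Ctr γ σ l ω z ∧
          Ctr γ σ l (σ (FreeGroup.of i) ω) z)).card : ℝ)) +
        m * (∑ t ∈ (univ : Finset (Finset J)) ×ˢ D.powerset, ∑ l : Ω × Fin m → Fin M,
          |((univ.filter (fun z => ft γ σ D l z = t)).card : ℝ) - av γ σ D m M t|) := by
      unfold YY
      rw [sum_add_distrib, ← mul_sum]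
      congr 1
      · rw [sum_comm]
      · congr 1
        rw [sum_comm]
    rw [b1]
    have a1 : (∑ i : Fin r, ∑ l : Ω × Fin m → Fin M, ((univ.filter (fun ω => ¬ ∃ z, Ctr γ σ l ω z ∧
        Ctr γ σ l (σ (FreeGroup.of i) ω) z)).card : ℝ)) ≤
        ∑ i : Fin r, (2 * η + 4 * (m : ℝ) ^ 2 / M) * Fintype.card Ω * TT := by
      apply sum_le_sum
      intro i _
      exact ectr_sum γ σ h1 hM (θ i) (FreeGroup.of i) η (hη i)
    have a2 : (∑ t ∈ (univ : Finset (Finset J)) ×ˢ D.powerset, ∑ l : Ω × Fin m → Fin M,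
        |((univ.filter (fun z => ft γ σ D l z = t)).card : ℝ) - av γ σ D m M t|) ≤
        ∑ t ∈ (univ : Finset (Finset J)) ×ˢ D.powerset,
          TT * Real.sqrt ((m ^ 4 : ℕ) * Fintype.card Ω) := by
      apply sum_le_sum
      intro t _
      exact var_bound γ σ h2 D hM t
    rw [sum_const, card_univ, Fintype.card_fin, nsmul_eq_mul] at a1
    rw [sum_const, nsmul_eq_mul] at a2
    have a3 := mul_le_mul_of_nonneg_left a2 (Nat.cast_nonneg m : (0 : ℝ) ≤ m)
    calc _ ≤ _ := add_le_add a1 a3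
      _ = TT * Bd := by
        rw [hBd]
        ring
  have hne : (univ : Finset (Ω × Fin m → Fin M)).Nonempty := univ_nonempty
  obtain ⟨l, _, hl⟩ := exists_le_of_sum_le hne hsum
  exact ⟨l, hl⟩

open Classical in
lemma freq_eq (D P : Finset (FG r)) (hP : P ⊆ D) :
    freq σ D P = ((univ.filter (fun z : Ω => D.filter (fun w => σ w z = z) = P)).card : ℝ) /
      Fintype.card Ω := by
  unfold freq
  rw [Nat.card_eq_fintype_card, Nat.card_eq_fintype_card, Fintype.card_subtype]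
  congr 3
  ext z
  simp only [mem_filter, mem_univ, true_and]
  constructor
  · intro h
    ext w
    simp only [mem_filter]
    constructor
    · rintro ⟨h1, h2⟩
      exact (h w h1).mp h2
    · intro hw
      exact ⟨hP hw, (h w (hP hw)).mpr hw⟩
  · intro h w hw
    have := Finset.ext_iff.mp h w
    simpa [hw] using this

lemma abs3 (x y a b : ℝ) : |x - y| ≤ |x - a| + |y - b| + |a - b| := by
  have e : x - y = (x - a) + (b - y) + (a - b) := by ring
  rw [e]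
  refine (abs_add_three _ _ _).trans ?_
  rw [abs_sub_comm b y]

lemma fin1 {A B E1 Y2 s1 s2 S m c d Bd : ℝ} (h0 : A ≤ B + m * S) (hB : B ≤ E1)
    (hS : m * S ≤ m * (s1 + s2 + c * d)) (h1 : E1 + m * s1 ≤ Bd) (h2 : Y2 + m * s2 ≤ Bd)
    (hY : 0 ≤ Y2) : A ≤ 2 * Bd + m * (c * d) := by
  have e : m * (s1 + s2 + c * d) = m * s1 + m * s2 + m * (c * d) := by ring
  rw [e] at hS
  linarith

lemma natsub_le_abs (x y : ℕ) : ((x - y : ℕ) : ℝ) ≤ |(x : ℝ) - y| := by
  rcases le_total y x with h | h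
  · rw [Nat.cast_sub h]
    exact le_abs_self _
  · rw [Nat.sub_eq_zero_of_le h, Nat.cast_zero]
    exact abs_nonneg _

lemma step_t (x y : ℕ) {a b d : ℝ} (h : |a - b| ≤ d) :
    ((x - y : ℕ) : ℝ) ≤ |(x : ℝ) - a| + |(y : ℝ) - b| + d :=
  (natsub_le_abs x y).trans ((abs3 _ _ _ _).trans (by linarith))

lemma fin2 {ε m c n s M η : ℝ} {r : ℕ} (hε : 0 < ε) (hm : 0 < m) (hc : 0 < c) (hn : 0 < n)
    (hs0 : 0 < s) (hss : s * s = n) (hsq : 6 * c * m ^ 3 / ε ≤ s)
    (hM2 : 8 * r * m ^ 2 / M ≤ ε / 3) :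
    2 * (r * ((2 * η + 4 * m ^ 2 / M) * n) + m * (c * (m ^ 2 * s))) +
      m * (c * (ε / (3 * m * c) * n)) ≤ (4 * r * η + ε) * n := by
  have e1 : m * (c * (ε / (3 * m * c) * n)) = ε / 3 * n := by
    field_simp
  have e2 : 2 * (m * (c * (m ^ 2 * s))) ≤ ε / 3 * n := by
    have h : 6 * c * m ^ 3 ≤ s * ε := by
      rwa [div_le_iff₀ hε] at hsq
    have h2 := mul_le_mul_of_nonneg_right h hs0.le
    have h3 : s * ε * s = ε * n := by rw [← hss]; ring
    rw [h3] at h2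
    nlinarith
  have e3 : 2 * (r * ((2 * η + 4 * m ^ 2 / M) * n)) ≤ 4 * r * η * n + ε / 3 * n := by
    have : 2 * (r * ((2 * η + 4 * m ^ 2 / M) * n)) =
        4 * r * η * n + (8 * r * m ^ 2 / M) * n := by ring
    rw [this]
    have := mul_le_mul_of_nonneg_right hM2 hn.le
    linarith
  rw [e1]
  linarith

end Glue

open Glue

theorem GLUE (h1 : T_CLOCK) (h2 : T_VAR) (h3 : T_EQUI) : T_MATCH := by
  classical
  intro r J _ _ γ θ ε hε
  set m := Fintype.card J with hm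
  have hmpos : 0 < m := Fintype.card_pos
  have hmR : (0 : ℝ) < m := by exact_mod_cast hmpos
  let E : Finset (FG r) := (univ : Finset ((J × J) × (J × J))).image
    (fun q => (γ q.1.1)⁻¹ * γ q.1.2 * (γ q.2.1)⁻¹ * γ q.2.2)
  let E' : Finset (FG r) := (univ : Finset (Fin r × (J × J))).image
    (fun q => (FreeGroup.of q.1 * γ q.2.1)⁻¹ * γ q.2.2)
  let D : Finset (FG r) := E ∪ E'
  have hE : ∀ w ∈ EE γ, w ∈ D := by
    rintro w ⟨a, b, c, d, rfl⟩
    apply mem_union_left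
    simp only [E, mem_image, mem_univ, true_and]
    exact ⟨((a, b), (c, d)), rfl⟩
  have hD : ∀ (i : Fin r) (j j' : J), (FreeGroup.of i * γ j)⁻¹ * γ j' ∈ D := by
    intro i j j'
    apply mem_union_right
    simp only [E', mem_image, mem_univ, true_and]
    exact ⟨(i, (j, j')), rfl⟩
  set TS := (univ : Finset (Finset J)) ×ˢ D.powerset with hTS
  set c : ℝ := (TS.card : ℝ) with hc
  have hcpos : 0 < c := by
    rw [hc]
    have : TS.Nonempty := by
      refine ⟨(∅, ∅), ?_⟩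
      simp [hTS]
    exact_mod_cast card_pos.mpr this
  set M : ℕ := ⌈24 * r * (m : ℝ) ^ 2 / ε⌉₊ + 1 with hMdef
  have hM : 0 < M := Nat.succ_pos _
  have hMR : (0 : ℝ) < M := by exact_mod_cast hM
  have hM2 : 8 * r * (m : ℝ) ^ 2 / M ≤ ε / 3 := by
    rw [div_le_div_iff₀ hMR (by norm_num)]
    have h : 24 * r * (m : ℝ) ^ 2 / ε ≤ M := by
      rw [hMdef]
      push_cast
      exact (Nat.le_ceil _).trans (by linarith)
    rw [div_le_iff₀ hε] at h
    nlinarith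
  set δ : ℝ := ε / (3 * m * c) with hδ
  have hδpos : 0 < δ := by positivity
  set n₀ : ℕ := ⌈(6 * c * (m : ℝ) ^ 3 / ε) ^ 2⌉₊ + 1 with hn₀
  refine ⟨D, δ, n₀, hδpos, ?_⟩
  intro Ω Ω' _ _ σ σ' η hη0 hcard hn hfreq hbad hbad'
  have hcard' : Fintype.card Ω = Fintype.card Ω' := by
    simpa [Nat.card_eq_fintype_card] using hcard
  rw [Nat.card_eq_fintype_card] at hn
  set n := Fintype.card Ω with hndef
  have hnpos : 0 < n := lt_of_lt_of_le (Nat.succ_pos _) hn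
  have hnR : (0 : ℝ) < n := by exact_mod_cast hnpos
  have : Nonempty Ω' := by
    rw [← Fintype.card_pos_iff, ← hcard']
    exact hnpos
  have hsq : (6 * c * (m : ℝ) ^ 3 / ε) ≤ Real.sqrt n := by
    apply Real.le_sqrt_of_sq_le
    calc (6 * c * (m : ℝ) ^ 3 / ε) ^ 2 ≤ (⌈(6 * c * (m : ℝ) ^ 3 / ε) ^ 2⌉₊ : ℝ) := Nat.le_ceil _
      _ ≤ (n₀ : ℝ) := by rw [hn₀]; push_cast; linarith
      _ ≤ n := by exact_mod_cast hn
  have hs0 : 0 < Real.sqrt n := Real.sqrt_pos.mpr hnR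
  have hss : Real.sqrt n * Real.sqrt n = n := Real.mul_self_sqrt hnR.le
  -- good labels
  have hb1 : ∀ i, (Nat.card {q : J × Ω // σ (γ (θ i q.1)) q.2 ≠
      σ (FreeGroup.of i * γ q.1) q.2} : ℝ) ≤ η * Fintype.card J * Fintype.card Ω := by
    intro i
    have := hbad i
    rwa [Nat.card_eq_fintype_card (α := J), Nat.card_eq_fintype_card (α := Ω)] at this
  have hb2 : ∀ i, (Nat.card {q : J × Ω' // σ' (γ (θ i q.1)) q.2 ≠
      σ' (FreeGroup.of i * γ q.1) q.2} : ℝ) ≤ η * Fintype.card J * Fintype.card Ω' := by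
    intro i
    have := hbad' i
    rwa [Nat.card_eq_fintype_card (α := J), Nat.card_eq_fintype_card (α := Ω')] at this
  obtain ⟨l, hl⟩ : ∃ l : Ω × Fin m → Fin M, YY γ σ D m l ≤
      r * ((2 * η + 4 * (m : ℝ) ^ 2 / M) * n) + m * (c * Real.sqrt ((m ^ 4 : ℕ) * n)) :=
    exists_good γ σ h1 h2 hM D θ η hb1
  obtain ⟨l', hl'⟩ : ∃ l' : Ω' × Fin m → Fin M, YY γ σ' D m l' ≤
      r * ((2 * η + 4 * (m : ℝ) ^ 2 / M) * n) + m * (c * Real.sqrt ((m ^ 4 : ℕ) * n)) := by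
    rw [hcard']
    exact exists_good γ σ' h1 h2 hM D θ η hb2
  have hsqrt : Real.sqrt ((m ^ 4 : ℕ) * (n : ℝ)) = (m : ℝ) ^ 2 * Real.sqrt n := by
    rw [Real.sqrt_mul (by positivity)]
    congr 1
    push_cast
    rw [show (m : ℝ) ^ 4 = ((m : ℝ) ^ 2) ^ 2 by ring]
    exact Real.sqrt_sq (by positivity)
  rw [hsqrt] at hl hl'
  obtain ⟨Φ, hΦ⟩ := det γ σ σ' hcard' D hE hD l l'
  refine ⟨Φ, fun i => ?_⟩
  have h0 := hΦ i
  rw [Nat.card_eq_fintype_card, Fintype.card_subtype, Nat.card_eq_fintype_card, ← hndef]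
  -- bound of the sum over types
  have hty : (∑ t ∈ TS, (((univ.filter (fun z => ft γ σ D l z = t)).card -
          (univ.filter (fun z' => ft γ σ' D l' z' = t)).card : ℕ) : ℝ)) ≤
      (∑ t ∈ TS, |((univ.filter (fun z => ft γ σ D l z = t)).card : ℝ) - av γ σ D m M t|) +
      (∑ t ∈ TS, |((univ.filter (fun z => ft γ σ' D l' z = t)).card : ℝ) - av γ σ' D m M t|) +
      c * (δ * n) := by
    have hconst : c * (δ * n) = ∑ t ∈ TS, δ * n := by
      rw [sum_const, nsmul_eq_mul]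
    rw [hconst, ← sum_add_distrib, ← sum_add_distrib]
    apply sum_le_sum
    intro t ht
    have ht2 : t.2 ∈ D.powerset := by
      rw [hTS, mem_product] at ht
      exact ht.2
    have hd : |av γ σ D m M t - av γ σ' D m M t| ≤ δ * n := by
      refine (av_diff γ σ σ' h3 hM D hE t).trans ?_
      have hf := hfreq t.2 ht2
      rw [freq_eq σ D t.2 (mem_powerset.mp ht2), freq_eq σ' D t.2 (mem_powerset.mp ht2),
        ← hcard', ← hndef, ← sub_div, abs_div, abs_of_pos hnR, div_le_iff₀ hnR] at hf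
      exact hf
    exact step_t _ _ hd
  have h0R : ((univ.filter (fun ω => Φ (σ (FreeGroup.of i) ω) ≠ σ' (FreeGroup.of i) (Φ ω))).card
      : ℝ) ≤ ((univ.filter (fun ω => ¬ ∃ z, Ctr γ σ l ω z ∧
        Ctr γ σ l (σ (FreeGroup.of i) ω) z)).card : ℝ) +
      m * ∑ t ∈ TS, (((univ.filter (fun z => ft γ σ D l z = t)).card -
          (univ.filter (fun z' => ft γ σ' D l' z' = t)).card : ℕ) : ℝ) := by
    exact_mod_cast h0
  have hEi : ((univ.filter (fun ω => ¬ ∃ z, Ctr γ σ l ω z ∧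
        Ctr γ σ l (σ (FreeGroup.of i) ω) z)).card : ℝ) ≤
      ∑ i : Fin r, ((univ.filter (fun ω => ¬ ∃ z, Ctr γ σ l ω z ∧
        Ctr γ σ l (σ (FreeGroup.of i) ω) z)).card : ℝ) :=
    single_le_sum (f := fun i : Fin r => ((univ.filter (fun ω => ¬ ∃ z, Ctr γ σ l ω z ∧
        Ctr γ σ l (σ (FreeGroup.of i) ω) z)).card : ℝ)) (fun _ _ => Nat.cast_nonneg _) (mem_univ i)
  have hE'0 : 0 ≤ ∑ i : Fin r, ((univ.filter (fun ω => ¬ ∃ z, Ctr γ σ' l' ω z ∧
        Ctr γ σ' l' (σ' (FreeGroup.of i) ω) z)).card : ℝ) :=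
    sum_nonneg (fun _ _ => Nat.cast_nonneg _)
  have hmul := mul_le_mul_of_nonneg_left hty hmR.le
  have hl2 := hl
  have hl2' := hl'
  simp only [YY] at hl2 hl2'
  rw [← hTS] at hl2 hl2'
  have key : ((univ.filter (fun ω => Φ (σ (FreeGroup.of i) ω) ≠
      σ' (FreeGroup.of i) (Φ ω))).card : ℝ) ≤
      2 * (r * ((2 * η + 4 * (m : ℝ) ^ 2 / M) * n) + m * (c * ((m : ℝ) ^ 2 * Real.sqrt n))) +
      m * (c * (δ * n)) := by
    exact fin1 h0R hEi hmul hl2 hl2' hE'0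
  refine key.trans ?_
  exact fin2 hε hmR hcpos hnR hs0 hss hsq hM2

end Pool.Agent.H10.PS
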