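/-
helper10: FIN, the assembly of the permutation stability theorem for F/([R,R]R^m).
-/
import Pool.Agent.H10.PS.Glue
import Pool.Agent.H12.PS.CLOCK
import Pool.Agent.H12.PS.VAR
import Pool.Agent.H43.PS.EQUI
import Pool.Agent.H43.PS.STAB
import Pool.Agent.H47.PS.SEQ
import Pool.Agent.H58.PS.CO
import Pool.Agent.H58.PS.FI
import Pool.Agent.H59.PS.AMEN
import Pool.Agent.H59.PS.LIM
import Pool.Agent.H59.PS.TILE
import Pool.Agent.H20.PS.Loc
import Pool.Agent.H90.PS.EQD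
import Pool.Agent.H90.PS.INT

set_option autoImplicit false

namespace Pool.Agent.H10.PS

theorem APPR : T_APPR :=
  INT (Pool.Agent.H58.PS.FI Pool.Agent.H58.PS.CO) Pool.Agent.H59.PS.TILE Pool.Agent.H20.PS.LOC EQD

theorem MATCH : T_MATCH := GLUE CLOCK VAR Pool.Agent.H43.PS.EQUI

theorem FIN : T_STAB :=
  Pool.Agent.H43.PS.STAB (Pool.Agent.H47.PS.SEQ MATCH
    Pool.Agent.H59.PS.AMEN Pool.Agent.H59.PS.LIM APPR)

end Pool.Agent.H10.PS
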