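import Pool.Agent.H38.PS.Targets

/-!
# NUM: choice of `r`
-/

set_option autoImplicit false

open Pool.Agent.H38.PS

namespace Pool.Agent.H10.PS

/-- powers and factorials -/
theorem pow_le_of_factorial {X c : ℝ} {k : ℕ} (hc : 0 ≤ c) (hk : (k.factorial : ℝ) ≤ X) :
    c ^ k ≤ X * Real.exp c := by
  have h1 := Real.pow_div_factorial_le_exp c hc k
  have h2 : (0 : ℝ) < (k.factorial : ℝ) := by exact_mod_cast k.factorial_pos
  rw [div_le_iff₀ h2] at h1
  have h3 := Real.exp_pos c
  nlinarith

/-- the logarithmic form -/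
theorem k_log_le {L c : ℝ} {k : ℕ} (hc : 0 < c) (hk : (k.factorial : ℝ) ≤ Real.exp L) :
    (k : ℝ) * Real.log c ≤ L + c := by
  have h := pow_le_of_factorial hc.le hk
  rw [← Real.exp_add] at h
  have h2 := Real.log_le_log (pow_pos hc k) h
  rwa [Real.log_pow, Real.log_exp] at h2

theorem choose_lower {N r : ℕ} {x : ℝ} (hr : 1 ≤ r) (hx : 0 ≤ x)
    (h : x * r ≤ ((N + 1 - r : ℕ) : ℝ)) : x ^ r ≤ (N.choose r : ℝ) := by
  have h0 : (0 : ℝ) < (r.factorial : ℝ) := by exact_mod_cast r.factorial_pos
  have h1 : (((N + 1 - r : ℕ) : ℝ)) ^ r ≤ (N.choose r : ℝ) * (r.factorial : ℝ) := by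
    have := Nat.pow_le_choose (α := ℝ) r N
    rwa [div_le_iff₀ h0] at this
  have h2 : (r.factorial : ℝ) ≤ (r : ℝ) ^ r := by exact_mod_cast Nat.factorial_le_pow r
  have h3 : (x * r) ^ r ≤ (((N + 1 - r : ℕ) : ℝ)) ^ r := by
    apply pow_le_pow_left₀ _ h
    positivity
  have h4 : (0 : ℝ) < (r : ℝ) ^ r := by
    have : (0 : ℝ) < r := by exact_mod_cast hr
    positivity
  have h5 : x ^ r * (r : ℝ) ^ r ≤ (N.choose r : ℝ) * (r : ℝ) ^ r := by
    rw [← mul_pow]
    exact h3.trans (h1.trans (mul_le_mul_of_nonneg_left h2 (by positivity)))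
  exact le_of_mul_le_mul_right h5 h4

/-- the final inequality in exponential form -/
theorem final_step {L h g : ℝ} {k N r H : ℕ} (hr : 1 ≤ r) (hh : 1 ≤ h) (hH : (H : ℝ) ≤ 3 * h)
    (hN : Real.exp (g * L / 4) * r ≤ ((N + 1 - r : ℕ) : ℝ))
    (hmain : 1 + L + k * Real.log (7 * r * h) < r * (g * L / 4)) :
    2 * Real.exp L * (2 * (r : ℝ) * (H : ℝ) + 1) ^ k < (N.choose r : ℝ) := by
  have h1 := choose_lower hr (Real.exp_pos (g * L / 4)).le hN
  have hr' : (1 : ℝ) ≤ r := by exact_mod_cast hr
  have h2 : (0 : ℝ) < 7 * r * h := by positivity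
  have h3 : (2 * (r : ℝ) * (H : ℝ) + 1) ≤ 7 * r * h := by
    have : (r : ℝ) * H ≤ r * (3 * h) := mul_le_mul_of_nonneg_left hH (by positivity)
    nlinarith
  have h4 : (2 * (r : ℝ) * (H : ℝ) + 1) ^ k ≤ (7 * r * h) ^ k :=
    pow_le_pow_left₀ (by positivity) h3 k
  have h5 : (7 * r * h) ^ k = Real.exp (k * Real.log (7 * r * h)) := by
    rw [Real.exp_nat_mul, Real.exp_log h2]
  have h6 : Real.exp (g * L / 4) ^ r = Real.exp (r * (g * L / 4)) := by
    rw [← Real.exp_nat_mul]
  have h7 : (2 : ℝ) ≤ Real.exp 1 := by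
    have := Real.add_one_le_exp (1 : ℝ)
    linarith
  calc 2 * Real.exp L * (2 * (r : ℝ) * (H : ℝ) + 1) ^ k
      ≤ Real.exp 1 * Real.exp L * Real.exp (k * Real.log (7 * r * h)) := by
        rw [h5] at h4
        gcongr
    _ = Real.exp (1 + L + k * Real.log (7 * r * h)) := by rw [Real.exp_add, Real.exp_add]
    _ < Real.exp (r * (g * L / 4)) := Real.exp_lt_exp.2 hmain
    _ ≤ (N.choose r : ℝ) := by rw [← h6]; exact h1

/-- growth of the exponential function -/
theorem exp_gt {h : ℝ} (hh : 50 ≤ h) : 6 * h < Real.exp (h / 4) := by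
  have h1 := Real.pow_div_factorial_le_exp (h / 4) (by linarith) 3
  have h2 : ((Nat.factorial 3 : ℕ) : ℝ) = 6 := by norm_num [Nat.factorial]
  rw [h2] at h1
  have h3 : 6 * h < (h / 4) ^ 3 / 6 := by
    have : (2500 : ℝ) ≤ h ^ 2 := by nlinarith
    nlinarith
  linarith

theorem log_le_sqrt {x : ℝ} (hx : 0 < x) : Real.log x ≤ 2 * Real.sqrt x - 2 := by
  have h1 := Real.log_le_sub_one_of_pos (Real.sqrt_pos.2 hx)
  rw [Real.log_sqrt hx.le] at h1
  linarith

theorem num_aux {g : ℝ} (hg : 0 < g) (hg1 : g ≤ 1) {L h : ℝ} {k N : ℕ}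
    (hL : 3584 / g ^ 3 + 24 / g + Real.exp (50 / g) + 3 ≤ L) (hh : (400 / g) ^ 2 * L ≤ h)
    (hhX : h ≤ Real.exp L) (hk : (k.factorial : ℝ) ≤ Real.exp L)
    (hN : Real.exp (g * L) ≤ (N : ℝ) * (12 * 2 ^ (9 * k))) :
    ∃ r : ℕ, 2 * Real.exp L * (2 * (r : ℝ) * (⌊3 * h⌋₊ : ℝ) + 1) ^ k < (N.choose r : ℝ) ∧
      ∀ n : ℕ, (n : ℝ) ≤ 3 * h → (n : ℝ) * Real.exp L ^ r < Real.exp (3 * h / 4) / 2 := by
  set c := Real.exp (50 / g) with hcdef
  have hc0 : 0 < c := Real.exp_pos _
  have p1 : 0 < 3584 / g ^ 3 := by positivity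
  have p2 : 0 < 24 / g := by positivity
  have hL3 : 3 ≤ L := by linarith
  have hL0 : 0 < L := by linarith
  have hLg3 : 3584 ≤ L * g ^ 3 := by
    have : 3584 / g ^ 3 ≤ L := by linarith
    rwa [div_le_iff₀ (by positivity)] at this
  have hLg : 24 ≤ g * L := by
    have : 24 / g ≤ L := by linarith
    rw [div_le_iff₀ hg] at this
    linarith
  -- F2
  have F2 : (k : ℝ) * Real.log L ≤ 4 * L := by
    have h1 := k_log_le (c := Real.sqrt L) (Real.sqrt_pos.2 hL0) hk
    rw [Real.log_sqrt hL0.le] at h1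
    have h2 : Real.sqrt L ≤ L := by
      rw [Real.sqrt_le_left hL0.le]
      nlinarith
    linarith
  have hlogL : 1 ≤ Real.log L := by
    have h1 : Real.exp 1 ≤ L := by
      have := Real.exp_one_lt_d9
      linarith
    have := Real.log_le_log (Real.exp_pos 1) h1
    rwa [Real.log_exp] at this
  have hk4 : (k : ℝ) ≤ 4 * L := by
    have : (k : ℝ) * 1 ≤ k * Real.log L := mul_le_mul_of_nonneg_left hlogL (by positivity)
    linarith
  -- F1
  have F1 : (12 * 2 ^ (9 * k) : ℝ) ≤ Real.exp (g * L / 4) := by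
    have h1 := k_log_le (c := c) hc0 hk
    rw [hcdef, Real.log_exp] at h1
    rw [← hcdef] at h1
    have h2 : (k : ℝ) * 50 ≤ g * (L + c) := by
      have : (k : ℝ) * (50 / g) * g ≤ (L + c) * g := mul_le_mul_of_nonneg_right h1 hg.le
      have e1 : (k : ℝ) * (50 / g) * g = k * 50 := by field_simp
      linarith
    have h3 := Real.log_two_lt_d9
    have h4 : (2 : ℝ) ^ (9 * k) = Real.exp ((9 * k : ℕ) * Real.log 2) := by
      rw [Real.exp_nat_mul, Real.exp_log (by norm_num)]
    have h5 : (12 : ℝ) ≤ Real.exp 3 := by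
      have h6 := Real.exp_one_gt_d9
      have h7 : Real.exp 3 = Real.exp 1 ^ 3 := by
        rw [← Real.exp_nat_mul]
        norm_num
      rw [h7]
      have h8 : (2.7 : ℝ) ^ 3 ≤ Real.exp 1 ^ 3 := pow_le_pow_left₀ (by norm_num) (by linarith) 3
      norm_num at h8 ⊢
      linarith
    rw [h4]
    calc (12 : ℝ) * Real.exp ((9 * k : ℕ) * Real.log 2)
        ≤ Real.exp 3 * Real.exp ((9 * k : ℕ) * Real.log 2) := by gcongr
      _ = Real.exp (3 + (9 * k : ℕ) * Real.log 2) := by rw [Real.exp_add]
      _ ≤ Real.exp (g * L / 4) := by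
        apply Real.exp_le_exp.2
        push_cast
        have hk0 : (0 : ℝ) ≤ k := by positivity
        have h6 : (9 * (k : ℝ)) * Real.log 2 ≤ k * (50 / 8) := by nlinarith
        have h9 : g * c + 24 ≤ g * L := by
          have h10 : 24 / g + c ≤ L := by linarith
          have h11 : (24 / g + c) * g ≤ L * g := mul_le_mul_of_nonneg_right h10 hg.le
          have e2 : (24 / g + c) * g = 24 + c * g := by field_simp
          linarith
        nlinarith
  -- N is large
  have hNl : Real.exp (3 * g * L / 4) ≤ N := by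
    have h1 : Real.exp (g * L) ≤ N * Real.exp (g * L / 4) :=
      hN.trans (mul_le_mul_of_nonneg_left F1 (by positivity))
    have h2 : Real.exp (g * L) = Real.exp (3 * g * L / 4) * Real.exp (g * L / 4) := by
      rw [← Real.exp_add]
      congr 1
      ring
    rw [h2] at h1
    exact le_of_mul_le_mul_right h1 (Real.exp_pos _)
  -- b
  set b := h / L with hbdef
  have hbL : h = b * L := by rw [hbdef]; field_simp
  have hbA : (400 / g) ^ 2 ≤ b := by
    rw [hbdef, le_div_iff₀ hL0]
    exact hh
  have h400 : (400 : ℝ) ≤ 400 / g := by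
    rw [le_div_iff₀ hg]
    nlinarith
  have hb1 : (160000 : ℝ) ≤ b := by nlinarith
  have hb0 : 0 < b := by linarith
  have hh50 : 50 ≤ h := by
    rw [hbL]
    have : (160000 : ℝ) * 3 ≤ b * L := mul_le_mul hb1 hL3 (by norm_num) hb0.le
    linarith
  set x := Real.exp (g * L / 4) with hxdef
  have hx2 : 2 ≤ x := by
    have h1 := Real.add_one_le_exp (g * L / 4)
    rw [hxdef]
    linarith
  have hx3 : Real.exp (3 * g * L / 4) = x ^ 3 := by
    rw [hxdef, ← Real.exp_nat_mul]
    congr 1
    push_cast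
    ring
  set r := min ⌊b / 2⌋₊ ⌊x⌋₊ with hrdef
  have hr1 : 1 ≤ r := by
    rw [hrdef, le_min_iff]
    constructor
    · rw [Nat.one_le_floor_iff]; linarith
    · rw [Nat.one_le_floor_iff]; linarith
  have hrb : (r : ℝ) ≤ b / 2 := by
    have h1 : r ≤ ⌊b / 2⌋₊ := min_le_left _ _
    have h2 : ((⌊b / 2⌋₊ : ℕ) : ℝ) ≤ b / 2 := Nat.floor_le (by positivity)
    have h3 : (r : ℝ) ≤ (⌊b / 2⌋₊ : ℕ) := by exact_mod_cast h1
    linarith
  have hrx : (r : ℝ) ≤ x := by
    have h1 : r ≤ ⌊x⌋₊ := min_le_right _ _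
    have h2 : ((⌊x⌋₊ : ℕ) : ℝ) ≤ x := Nat.floor_le (by positivity)
    have h3 : (r : ℝ) ≤ (⌊x⌋₊ : ℕ) := by exact_mod_cast h1
    linarith
  have hr0 : (1 : ℝ) ≤ r := by exact_mod_cast hr1
  refine ⟨r, ?_, ?_⟩
  · -- main
    have hfl : ((⌊3 * h⌋₊ : ℕ) : ℝ) ≤ 3 * h := Nat.floor_le (by linarith)
    refine final_step (g := g) hr1 (by linarith) hfl ?_ ?_
    · -- N + 1 - r
      rw [← hxdef]
      have hN3 : x ^ 3 ≤ N := by rw [← hx3]; exact hNl
      have hx0 : 0 ≤ x := by linarith
      have hx1 : x * r ≤ x * x := mul_le_mul_of_nonneg_left hrx hx0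
      have hxx : 2 * x ≤ x * x := mul_le_mul_of_nonneg_right hx2 hx0
      have hxxx : 2 * (x * x) ≤ x ^ 3 := by
        have : 2 * (x * x) ≤ x * (x * x) := mul_le_mul_of_nonneg_right hx2 (by positivity)
        calc 2 * (x * x) ≤ x * (x * x) := this
          _ = x ^ 3 := by ring
      have hrN : r ≤ N := by
        have : (r : ℝ) ≤ N := by linarith
        exact_mod_cast this
      have hcast : ((N + 1 - r : ℕ) : ℝ) = (N : ℝ) + 1 - r := by
        rw [Nat.cast_sub (by omega)]
        push_cast
        ring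
      rw [hcast]
      linarith
    · -- the logarithms
      have hlog0 : 0 < 7 * (r : ℝ) * h := by positivity
      rcases le_total ⌊b / 2⌋₊ ⌊x⌋₊ with hcase | hcase
      · have hre : r = ⌊b / 2⌋₊ := by rw [hrdef, min_eq_left hcase]
        have hrlow : b / 3 ≤ r := by
          have h1 : b / 2 < (⌊b / 2⌋₊ : ℕ) + 1 := Nat.lt_floor_add_one (b / 2)
          rw [hre]
          linarith
        have h7 : 7 * (r : ℝ) * h ≤ (2 * b) ^ 2 * L := by
          have h71 : (r : ℝ) * (b * L) ≤ (b / 2) * (b * L) :=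
            mul_le_mul_of_nonneg_right hrb (by positivity)
          have h72 : 0 < b * b * L := by positivity
          have h73 : 7 * (r : ℝ) * h = 7 * (r * (b * L)) := by rw [hbL]; ring
          have h74 : (2 * b) ^ 2 * L = 4 * (b * b * L) := by ring
          have h75 : (b / 2) * (b * L) = b * b * L / 2 := by ring
          rw [h73, h74]
          rw [h75] at h71
          linarith
        have h8 : Real.log (7 * (r : ℝ) * h) ≤ 2 * Real.log (2 * b) + Real.log L := by
          have h9 := Real.log_le_log hlog0 h7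
          have h10 : Real.log ((2 * b) ^ 2 * L) = 2 * Real.log (2 * b) + Real.log L := by
            rw [Real.log_mul (by positivity) (by positivity), Real.log_pow]
            push_cast
            ring
          linarith
        have h9 : Real.log (2 * b) ≤ 2 * Real.sqrt (2 * b) - 2 := log_le_sqrt (by positivity)
        set s := Real.sqrt b with hsdef
        have hs2 : s ^ 2 = b := Real.sq_sqrt hb0.le
        have hs0 : 0 ≤ s := Real.sqrt_nonneg b
        have hsq : Real.sqrt (2 * b) ≤ 3 / 2 * s := by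
          apply Real.sqrt_le_iff.2
          constructor
          · positivity
          · have : (3 / 2 * s) ^ 2 = 9 / 4 * s ^ 2 := by ring
            rw [this, hs2]
            linarith
        have hs400 : 400 / g ≤ s := by
          rw [hsdef]
          exact Real.le_sqrt_of_sq_le hbA
        have hgs : 400 ≤ g * s := by
          rw [div_le_iff₀ hg] at hs400
          linarith
        have hk0 : (0 : ℝ) ≤ k := by positivity
        have h10 : (k : ℝ) * Real.log (7 * (r : ℝ) * h) ≤ 4 * L * (6 * s) + 4 * L := by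
          have h11 : Real.log (2 * b) ≤ 3 * s - 2 := by linarith
          have h12 : 0 ≤ Real.log (2 * b) := Real.log_nonneg (by linarith)
          calc (k : ℝ) * Real.log (7 * (r : ℝ) * h) ≤ k * (2 * Real.log (2 * b) + Real.log L) :=
                mul_le_mul_of_nonneg_left h8 hk0
            _ = k * (2 * Real.log (2 * b)) + k * Real.log L := by ring
            _ ≤ 4 * L * (2 * Real.log (2 * b)) + 4 * L := by
                have := mul_le_mul_of_nonneg_right hk4 (by positivity : 0 ≤ 2 * Real.log (2 * b))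
                linarith
            _ ≤ 4 * L * (6 * s) + 4 * L := by
                have : 4 * L * (2 * Real.log (2 * b)) ≤ 4 * L * (6 * s) :=
                  mul_le_mul_of_nonneg_left (by linarith) (by positivity)
                linarith
        have h13 : (b / 3) * (g * L / 4) ≤ r * (g * L / 4) :=
          mul_le_mul_of_nonneg_right hrlow (by positivity)
        have h14 : 1 + L + (4 * L * (6 * s) + 4 * L) < (b / 3) * (g * L / 4) := by
          rw [← hs2]
          have hs1 : 400 ≤ s := by linarith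
          have h15 : (400 : ℝ) * s ≤ g * s * s := mul_le_mul_of_nonneg_right hgs hs0
          have h16 : 400 * s * L ≤ g * s * s * L := mul_le_mul_of_nonneg_right h15 hL0.le
          have h17 : s ^ 2 / 3 * (g * L / 4) = g * s * s * L / 12 := by ring
          rw [h17]
          have h18 : 400 * L ≤ s * L := mul_le_mul_of_nonneg_right hs1 hL0.le
          linarith
        linarith
      · have hre : r = ⌊x⌋₊ := by rw [hrdef, min_eq_right hcase]
        have hrlow : x / 2 ≤ r := by
          have h1 : x < (⌊x⌋₊ : ℕ) + 1 := Nat.lt_floor_add_one x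
          rw [hre]
          linarith
        have hxX : x ≤ Real.exp L := by
          rw [hxdef]
          apply Real.exp_le_exp.2
          have : g * L ≤ 1 * L := mul_le_mul_of_nonneg_right hg1 hL0.le
          linarith
        have h7 : 7 * (r : ℝ) * h ≤ Real.exp (3 * L) := by
          have e1 : (7 : ℝ) ≤ Real.exp L := by
            have h6 := Real.exp_one_gt_d9
            have h7 : Real.exp 3 = Real.exp 1 ^ 3 := by
              rw [← Real.exp_nat_mul]
              norm_num
            have h8 : (2.7 : ℝ) ^ 3 ≤ Real.exp 1 ^ 3 :=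
              pow_le_pow_left₀ (by norm_num) (by linarith) 3
            have h9 : Real.exp 3 ≤ Real.exp L := Real.exp_le_exp.2 hL3
            rw [h7] at h9
            norm_num at h8
            linarith
          have e2 : Real.exp (3 * L) = Real.exp L * Real.exp L * Real.exp L := by
            rw [← Real.exp_add, ← Real.exp_add]
            congr 1
            ring
          rw [e2]
          have e3 : (r : ℝ) ≤ Real.exp L := hrx.trans hxX
          gcongr
        have h8 : Real.log (7 * (r : ℝ) * h) ≤ 3 * L := by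
          have h9 := Real.log_le_log hlog0 h7
          rwa [Real.log_exp] at h9
        have h9 : 0 ≤ Real.log (7 * (r : ℝ) * h) := by
          apply Real.log_nonneg
          have h90 : 7 * 1 * 1 ≤ 7 * (r : ℝ) * h :=
            mul_le_mul (by linarith) (by linarith) (by norm_num) (by positivity)
          linarith
        have h10 : (k : ℝ) * Real.log (7 * (r : ℝ) * h) ≤ 4 * L * (3 * L) :=
          mul_le_mul hk4 h8 h9 (by positivity)
        have h11 : (x / 2) * (g * L / 4) ≤ r * (g * L / 4) :=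
          mul_le_mul_of_nonneg_right hrlow (by positivity)
        have h12 : (g * L / 4) ^ 2 / 2 ≤ x := by
          have := Real.pow_div_factorial_le_exp (g * L / 4) (by positivity) 2
          have e : ((Nat.factorial 2 : ℕ) : ℝ) = 2 := by norm_num [Nat.factorial]
          rw [e] at this
          exact this
        have h13 : 112 * L ≤ g * x := by
          have h14 : g * ((g * L / 4) ^ 2 / 2) ≤ g * x := mul_le_mul_of_nonneg_left h12 hg.le
          have h15 : g * ((g * L / 4) ^ 2 / 2) = (L * g ^ 3) * L / 32 := by ring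
          have h16 : 3584 * L ≤ (L * g ^ 3) * L := mul_le_mul_of_nonneg_right hLg3 hL0.le
          linarith
        have h17 : 112 * L * L ≤ g * x * L := mul_le_mul_of_nonneg_right h13 hL0.le
        have h18 : (x / 2) * (g * L / 4) = g * x * L / 8 := by ring
        rw [h18] at h11
        have h19 : 3 * L ≤ L * L := mul_le_mul_of_nonneg_right hL3 hL0.le
        linarith
  · intro n hn
    have h1 : Real.exp L ^ r ≤ Real.exp (h / 2) := by
      rw [← Real.exp_nat_mul]
      apply Real.exp_le_exp.2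
      rw [hbL]
      have := mul_le_mul_of_nonneg_right hrb hL0.le
      linarith
    have h2 := exp_gt hh50
    have h3 : Real.exp (3 * h / 4) = Real.exp (h / 4) * Real.exp (h / 2) := by
      rw [← Real.exp_add]
      congr 1
      ring
    have h4 : (n : ℝ) * Real.exp L ^ r ≤ 3 * h * Real.exp (h / 2) :=
      mul_le_mul hn h1 (by positivity) (by linarith)
    have h5 : 6 * h * Real.exp (h / 2) < Real.exp (h / 4) * Real.exp (h / 2) :=
      mul_lt_mul_of_pos_right h2 (Real.exp_pos _)
    rw [h3]
    linarith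

theorem pf_NUM : T_NUM := by
  intro γ hγ
  set g := min γ 1 with hgdef
  have hg : 0 < g := lt_min hγ one_pos
  have hg1 : g ≤ 1 := min_le_right _ _
  have hgγ : g ≤ γ := min_le_left _ _
  have h400 : (400 : ℝ) ≤ 400 / g := by
    rw [le_div_iff₀ hg]
    nlinarith
  have hpos : 3 ≤ 3584 / g ^ 3 + 24 / g + Real.exp (50 / g) + 3 := by
    have p1 : 0 < 3584 / g ^ 3 := by positivity
    have p2 : 0 < 24 / g := by positivity
    have p3 := Real.exp_pos (50 / g)
    linarith
  refine ⟨(400 / g) ^ 2, Real.exp (3584 / g ^ 3 + 24 / g + Real.exp (50 / g) + 3), by nlinarith,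
    ?_, ?_⟩
  · have := Real.add_one_le_exp (3584 / g ^ 3 + 24 / g + Real.exp (50 / g) + 3)
    linarith
  · intro X h k N hX hh hhX hk hN
    have hX0 : 0 < X := (Real.exp_pos _).trans_le hX
    have hX1 : 1 ≤ X := by
      have := Real.add_one_le_exp (3584 / g ^ 3 + 24 / g + Real.exp (50 / g) + 3)
      linarith
    have hXe : Real.exp (Real.log X) = X := Real.exp_log hX0
    have hL : 3584 / g ^ 3 + 24 / g + Real.exp (50 / g) + 3 ≤ Real.log X := by
      have := Real.log_le_log (Real.exp_pos _) hX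
      rwa [Real.log_exp] at this
    have hN' : Real.exp (g * Real.log X) ≤ (N : ℝ) * (12 * 2 ^ (9 * k)) := by
      refine le_trans ?_ hN
      rw [mul_comm, ← Real.rpow_def_of_pos hX0]
      exact Real.rpow_le_rpow_of_exponent_le hX1 hgγ
    have := num_aux hg hg1 (L := Real.log X) (h := h) (k := k) (N := N) hL hh (by rw [hXe]; exact hhX)
      (by rw [hXe]; exact hk) hN'
    rwa [hXe] at this

end Pool.Agent.H10.PS
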